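import Pool.Agent.ANO2.EqApp.Cpt
import Pool.Agent.ANO2.EqIdx.Main

/-!
# ANO2, module EqApp: no fixed points in the other classes (package EQAPP-NOFIX)

Let `a ∈ Z`, `a ≠ 1`. The map `a • T` has no fixed point.

Proof. `EqIdx.no_fix` for the group `Z' = Subgroup.centralizer {a}`, which acts on `X` by
restriction
(`Action` of a subgroup: all four properties are inherited), `G = a • T`, `G₀' = a • T₀`. Both
commute with `Z'` (`Pair.comm` for `T`); `Pair S (a • T₀) (a • T)` by `Pair.comp` and
`GrpData.deck`, which gives smoothness, the signs and the bounded distance; compactness modulo `Z'`: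
`cpt_cent`. `a • T₀` has no fixed point: by `GrpData.eq_one` there is `i ∈ I₀` with
`(a • p).1 i ≠ p.1 i` for all `p` (if for every `i ∈ I₀` some `p` has `(a • p).1 i = p.1 i` then
`a = 1`), and `(T₀ p).1 i = p.1 i`; `(a • p).1 i` only depends on `p.1 i` (`GrpData.coord`).
-/

set_option autoImplicit false
set_option linter.unusedSectionVars false

open Set Filter Topology
open scoped UpperHalfPlane MatrixGroups

namespace Pool.Agent.ANO2.EqApp

open Pool.Agent.ANO Pool.Agent.ANO2 Pool.Agent.ANO2.EqIdx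

variable {r k : ℕ} {S : Fin r → ClosedSurface} {I₀ : Set (Fin r)}
  {T₀ T : ANO.X r k → ANO.X r k} {Z : Type} [Group Z] [MulAction Z (ANO.X r k)]

private theorem action_sub_NoFix (h : Action (chartX r k) Z) (Z' : Subgroup Z) :
    Action (chartX r k) Z' := by
  refine ⟨fun z x y => h.dist_smul (z : Z) x y, fun z => h.smooth (z : Z),
    fun z x hx => Subtype.ext (h.free (z : Z) x hx), fun K hK => ?_⟩
  have h1 : ((Subtype.val : Z' → Z) ⁻¹' {z : Z | ∃ x ∈ K, z • x ∈ K}).Finite :=
    (h.proper K hK).preimage Subtype.val_injective.injOn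
  exact h1

theorem no_fix_one [Nontrivial (ANO.E r k)] (h : GrpData S I₀ T₀ Z) (D : ModData I₀ T₀)
    (hP : Pair S T₀ T) {a : Z} {q : ANO.X r k} (hq : a • T q = q) : a = 1 := by
  by_contra ha
  have hP' : Pair S (fun p => a • T₀ p) (fun p => a • T p) := hP.comp (h.deck a)
  obtain ⟨σ, hσ, hs⟩ := hP'.sign
  obtain ⟨c, hc⟩ := hP'.near
  have hcomm : ∀ z : Subgroup.centralizer ({a} : Set Z), (z : Z) * a = a * (z : Z) :=
    fun z => Subgroup.mem_centralizer_singleton_iff.1 z.2
  have hT : ∀ (z : Z) (p : ANO.X r k), T (z • p) = z • T p :=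
    fun z p => hP.comm (h.deck z) (h.comm z) p
  have hE : Eqv (chartX r k) (Subgroup.centralizer ({a} : Set Z)) (fun p => a • T p) := by
    refine ⟨?_, fun z p => ?_⟩
    · rw [chartX_dom]
      exact hP'.smooth
    · change a • T ((z : Z) • p) = (z : Z) • a • T p
      rw [hT, smul_smul, smul_smul, hcomm z]
  have h0 : ∀ x : ANO.X r k, a • T₀ x ≠ x := by
    intro x hx
    apply ha
    refine h.eq_one D.Φ a fun i hi => ⟨x, ?_⟩
    obtain ⟨γ, hγ, hc'⟩ := h.coord a
    have h1 : (T₀ x).1 i = x.1 i := by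
      rw [D.Φ.form x]
      exact D.id i hi _
    have h2 : (a • T₀ x).1 i = x.1 i := by rw [hx]
    rw [hc', h1] at h2
    rw [hc']
    exact h2
  refine no_fix (C := chartX r k) (Z := Subgroup.centralizer ({a} : Set Z))
    (G := fun p => a • T p) (G₀ := fun p => a • T₀ p) (action_sub_NoFix h.action _) hE
    (fun q _ hq => (hs q hq).1) hσ (fun q hq => (hs q hq).2) hP'.cont ?_ hc ?_ h0 q hq
  · intro z p
    change a • T₀ ((z : Z) • p) = (z : Z) • a • T₀ p
    rw [h.comm, smul_smul, smul_smul, hcomm z]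
  · intro R
    obtain ⟨L, hL, hL'⟩ := cpt_cent h D a R
    refine ⟨L, hL, fun x hx => ?_⟩
    obtain ⟨z, hz, hzx⟩ := hL' x hx
    exact ⟨⟨z, Subgroup.mem_centralizer_singleton_iff.2 hz⟩, hzx⟩

end Pool.Agent.ANO2.EqApp
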