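import Pool.Agent.ANO2.EqApp.FixG
import Pool.Agent.ANO2.EqApp.NoFix

/-!
# ANO2, module EqApp: the final statements
-/

set_option autoImplicit false
set_option linter.unusedSectionVars false

open Set Filter Topology
open scoped UpperHalfPlane MatrixGroups

namespace Pool.Agent.ANO2.EqApp

open Pool.Agent.ANO Pool.Agent.ANO2 Pool.Agent.ANO2.EqIdx

variable {r k : ℕ} {S : Fin r → ClosedSurface} {I₀ : Set (Fin r)}
  {T₀ T : ANO.X r k → ANO.X r k} {Z : Type} [Group Z] [MulAction Z (ANO.X r k)]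

/-- `z T ^ n` has no fixed point for `z ≠ 1`, `n > 0`. -/
theorem noFix [Nontrivial (ANO.E r k)] (h : GrpData S I₀ T₀ Z) (D : ModData I₀ T₀)
    (hP : Pair S T₀ T) (z : Z) (n : ℕ) (q : ANO.X r k) (hn : 0 < n) (hq : z • T^[n] q = q) :
    z = 1 := by
  obtain ⟨D', -⟩ := D.pow hn
  exact no_fix_one (h.pow n) D' (hP.pow hn) hq

/-- The number of orbits of fixed points of `T ^ n` is bounded. -/
theorem fin [Nontrivial (ANO.E r k)] (h : GrpData S I₀ T₀ Z) (D : ModData I₀ T₀)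
    (hP : Pair S T₀ T) : ∃ B : ℕ, ∀ n : ℕ, 0 < n → (fixOrb Z T^[n]).encard ≤ B := by
  choose θ hθ using fun i => exists_theta (S i)
  obtain ⟨K, hK, hKz⟩ := h.cocpt
  obtain ⟨B, hB⟩ := exists_bound (k := k) (Z := Z) (I₀ := I₀) hθ hK
  refine ⟨B, fun n hn => ?_⟩
  obtain ⟨D', -⟩ := D.pow hn
  exact hB _ _ (h.pow n) D' (hP.pow hn) hKz

end Pool.Agent.ANO2.EqApp
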