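import Pool.Agent.ANO2.EqApp.Pair
import Pool.Agent.ANO2.EqIdx.Basic
import Pool.Agent.ANO2.Dyn.DeckC

/-!
# ANO2, module EqApp: the action of the group `Z` (package EQAPP-ACTX)

* `GrpData.action`: isometries, `C¹` (`Idx.deck_dist`, `Idx.deck_contDiffOn`); free: `deck_eq_id`
  and
  `faithful`; proper: `z ↦ (z • ·)` is injective (`faithful`) with values in the finite set
  `Dyn.deck_finite`.
* `GrpData.eq_one`: if for every `i ∈ I₀` some point has the same `i`-th coordinate before and after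
  `z`, then `z` acts trivially on all surface coordinates (`ClosedSurface.free`, `triv`), so `z` is
  the translation `t ↦ t + v`; `T₀ (z • p) = z • T₀ p` gives `B v = v`, so `v = 0` (`Form.hyp`), and
  `faithful`.
* `GrpData.finiteN`: only finitely many `z` move a point with `I₀`-coordinates in the compact set
  `K`
  to such a point: `z` is determined by the maps `(z • p).1 i`, `i ∈ I₀` (`eq_one` for `z⁻¹ z'`),
  each of
  which is one of finitely many (`ClosedSurface.proper`).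
* `GrpData.exists_smallN`, `GrpData.exists_disjN`: from `finiteN`.
-/

set_option autoImplicit false
set_option linter.unusedSectionVars false

open Set Filter Topology
open scoped UpperHalfPlane MatrixGroups

namespace Pool.Agent.ANO2.EqApp

open Pool.Agent.ANO Pool.Agent.ANO2 Pool.Agent.ANO2.EqIdx

variable {r k : ℕ} {S : Fin r → ClosedSurface} {I₀ : Set (Fin r)}
  {T₀ : ANO.X r k → ANO.X r k} {Z : Type} [Group Z] [MulAction Z (ANO.X r k)]

private theorem inj_ActX (h : GrpData S I₀ T₀ Z) {z z' : Z}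
    (hz : ∀ p : ANO.X r k, z • p = z' • p) : z = z' := by
  have h1 : z'⁻¹ * z = 1 := by
    refine h.faithful _ fun p => ?_
    rw [mul_smul, hz, inv_smul_smul]
  exact (inv_mul_eq_one.1 h1).symm

theorem GrpData.action (h : GrpData S I₀ T₀ Z) : Action (chartX r k) Z := by
  refine ⟨fun z x y => ?_, fun z => ?_, fun z x hx => ?_, fun K hK => ?_⟩
  · exact Idx.deck_dist (h.deck z) x y
  · rw [chartX_loc, chartX_dom]
    exact Idx.deck_contDiffOn (h.deck z)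
  · refine h.faithful z fun p => ?_
    exact congrFun (deck_eq_id (h.deck z) (p := x) hx) p
  · have h1 := (Dyn.deck_finite (S := S) hK).preimage (f := fun (z : Z) (p : ANO.X r k) => z • p)
      (fun z _ z' _ hzz => inj_ActX h fun p => congrFun hzz p)
    refine h1.subset ?_
    rintro z ⟨x, hx, hzx⟩
    exact ⟨h.deck z, x, hx, hzx⟩

/-- the `i`-th coordinate of `z • p` -/
theorem GrpData.coord (h : GrpData S I₀ T₀ Z) (z : Z) : ∃ γ : Fin r → SL(2, ℝ),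
    (∀ i, γ i ∈ (S i).Γ) ∧ ∀ (p : ANO.X r k) (i : Fin r), (z • p).1 i = γ i • p.1 i := by
  obtain ⟨γ, v, hγ, hz⟩ := h.deck z
  refine ⟨γ, hγ, fun p i => ?_⟩
  have h1 : z • p = (fun i => γ i • p.1 i, fun j => p.2 j + v j) := hz p
  rw [h1]

theorem GrpData.eq_one (h : GrpData S I₀ T₀ Z) (Φ : Form T₀) (z : Z)
    (hz : ∀ i ∈ I₀, ∃ p : ANO.X r k, (z • p).1 i = p.1 i) : z = 1 := by
  obtain ⟨γ, v, hγ, hz'⟩ := h.deck z
  have h1 : ∀ p : ANO.X r k, z • p = (fun i => γ i • p.1 i, fun j => p.2 j + v j) := hz'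
  have h2 : ∀ (i : Fin r) (w : ℍ), γ i • w = w := by
    intro i w
    by_cases hi : i ∈ I₀
    · obtain ⟨p, hp⟩ := hz i hi
      rw [h1] at hp
      exact (S i).free (γ i) (hγ i) (p.1 i) hp w
    · have h3 := h.triv z (fun _ => w, fun _ => 0) i hi
      rw [h1] at h3
      exact h3
  have h4 : ∀ p : ANO.X r k, z • p = (p.1, p.2 + fun j => (v j : ℝ)) := by
    intro p
    rw [h1]
    refine Prod.ext (funext fun i => h2 i _) rfl
  obtain ⟨p0⟩ : Nonempty (ANO.X r k) := ⟨(fun _ => UpperHalfPlane.I, fun _ => 0)⟩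
  have h5 := h.comm z p0
  rw [h4 p0, h4 (T₀ p0)] at h5
  have h6 := congrArg Prod.snd h5
  simp only [Φ.form] at h6
  have h7 : Φ.B (fun j => (v j : ℝ)) = fun j => (v j : ℝ) := by
    funext j
    have h8 := congrFun h6 j
    simp only [map_add, Pi.add_apply] at h8
    linarith
  have h9 := Φ.hyp _ h7
  refine h.faithful z fun p => ?_
  rw [h4 p, h9, add_zero]

theorem GrpData.finiteN (h : GrpData S I₀ T₀ Z) (Φ : Form T₀) {K : Set ℍ} (hK : IsCompact K) :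
    {z : Z | ∃ p : ANO.X r k, (∀ i ∈ I₀, p.1 i ∈ K) ∧ ∀ i ∈ I₀, (z • p).1 i ∈ K}.Finite := by
  classical
  choose γ hγ hc using h.coord
  have hF : (Set.univ.pi fun i : Fin r => insert (1 : SL(2, ℝ))
      {g : SL(2, ℝ) | g ∈ (S i).Γ ∧ ∃ z ∈ K, g • z ∈ K}).Finite :=
    Set.Finite.pi fun i => ((S i).proper K hK).insert 1
  refine Set.Finite.of_injOn (f := fun (z : Z) (i : Fin r) => if i ∈ I₀ then γ z i else 1)
    ?_ ?_ hF
  · rintro z ⟨p, hp, hzp⟩ i _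
    by_cases hi : i ∈ I₀
    · simp only [hi, if_true]
      refine Or.inr ⟨hγ z i, p.1 i, hp i hi, ?_⟩
      rw [← hc]
      exact hzp i hi
    · simp only [hi, if_false]
      exact Or.inl rfl
  · rintro z - z' - hzz
    have h1 : ∀ i ∈ I₀, γ z i = γ z' i := by
      intro i hi
      have h2 := congrFun hzz i
      simpa only [hi, if_true] using h2
    have h3 : z'⁻¹ * z = 1 := by
      refine h.eq_one Φ _ fun i hi => ⟨(fun _ => UpperHalfPlane.I, fun _ => 0), ?_⟩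
      rw [mul_smul, hc, hc, h1 i hi, ← hc z', ← hc z'⁻¹, inv_smul_smul]
    exact (inv_mul_eq_one.1 h3).symm

private theorem common_ActX {F : Set Z} (hF : F.Finite) {P : Z → ℝ → Prop}
    (hP : ∀ z, ∃ ρ > 0, P z ρ) (hm : ∀ z ρ ρ', ρ' ≤ ρ → P z ρ → P z ρ') :
    ∃ ρ > 0, ρ ≤ 1 ∧ ∀ z ∈ F, P z ρ := by
  have h1 : ∀ᶠ ρ in 𝓝[>] (0 : ℝ), ∀ z ∈ F, P z ρ := by
    rw [Filter.eventually_all_finite hF]
    intro z _
    obtain ⟨ρ, hρ, h2⟩ := hP z
    filter_upwards [Ioc_mem_nhdsGT hρ] with ρ' h3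
    exact hm z ρ ρ' h3.2 h2
  have h2 : ∀ᶠ ρ in 𝓝[>] (0 : ℝ), ρ ∈ Ioc (0 : ℝ) 1 := Ioc_mem_nhdsGT one_pos
  obtain ⟨ρ, h3, h4⟩ := (h1.and h2).exists
  exact ⟨ρ, h4.1, h4.2, h3⟩

theorem GrpData.exists_smallN (h : GrpData S I₀ T₀ Z) (Φ : Form T₀) (y : Fin r → ℍ) :
    ∃ ρ > 0, ∀ (z : Z) (p : ANO.X r k), (∀ i ∈ I₀, dist (p.1 i) (y i) ≤ ρ) →
      (∀ i ∈ I₀, dist ((z • p).1 i) (y i) ≤ ρ) → z = 1 := by
  have hK : IsCompact (⋃ i, Metric.closedBall (y i) 1) :=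
    isCompact_iUnion fun i => isCompact_closedBall _ _
  suffices hQ : ∃ ρ > 0, ρ ≤ 1 ∧ ∀ z ∈ {z : Z | ∃ p : ANO.X r k,
      (∀ i ∈ I₀, p.1 i ∈ ⋃ i, Metric.closedBall (y i) 1) ∧
        ∀ i ∈ I₀, (z • p).1 i ∈ ⋃ i, Metric.closedBall (y i) 1},
      ∀ p : ANO.X r k, (∀ i ∈ I₀, dist (p.1 i) (y i) ≤ ρ) →
      (∀ i ∈ I₀, dist ((z • p).1 i) (y i) ≤ ρ) → z = 1 by
    obtain ⟨ρ, hρ, hρ1, hP⟩ := hQ
    refine ⟨ρ, hρ, fun z p h1 h2 => hP z ⟨p, fun i hi => ?_, fun i hi => ?_⟩ p h1 h2⟩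
    · exact mem_iUnion.2 ⟨i, Metric.mem_closedBall.2 ((h1 i hi).trans hρ1)⟩
    · exact mem_iUnion.2 ⟨i, Metric.mem_closedBall.2 ((h2 i hi).trans hρ1)⟩
  refine common_ActX (h.finiteN Φ hK)
    (P := fun z ρ => ∀ p : ANO.X r k, (∀ i ∈ I₀, dist (p.1 i) (y i) ≤ ρ) →
      (∀ i ∈ I₀, dist ((z • p).1 i) (y i) ≤ ρ) → z = 1) ?_ ?_
  · intro z
    by_cases hz : z = 1
    · exact ⟨1, one_pos, fun _ _ _ => hz⟩
    · obtain ⟨γ, hγ, hc⟩ := h.coord z
      have h1 : ∃ i ∈ I₀, ∀ p : ANO.X r k, (z • p).1 i ≠ p.1 i := by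
        by_contra hcon
        push Not at hcon
        exact hz (h.eq_one Φ z hcon)
      obtain ⟨i, hi, h2⟩ := h1
      have h3 : γ i • y i ≠ y i := by
        have h4 := h2 (y, fun _ => 0)
        rwa [hc] at h4
      have h5 : 0 < dist (γ i • y i) (y i) := dist_pos.2 h3
      refine ⟨dist (γ i • y i) (y i) / 3, by linarith, fun p h6 h7 => ?_⟩
      exfalso
      have h8 := h6 i hi
      have h9 := h7 i hi
      rw [hc] at h9
      have h10 := dist_triangle (γ i • y i) (γ i • p.1 i) (y i)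
      rw [dist_smul, dist_comm (y i) (p.1 i)] at h10
      linarith
  · intro z ρ ρ' hle h1 p h2 h3
    exact h1 p (fun i hi => (h2 i hi).trans hle) fun i hi => (h3 i hi).trans hle

theorem GrpData.exists_disjN (h : GrpData S I₀ T₀ Z) (Φ : Form T₀) (y y' : Fin r → ℍ)
    (hne : ∀ (z : Z) (p : ANO.X r k), (∀ i ∈ I₀, p.1 i = y i) →
      ¬ ∀ i ∈ I₀, (z • p).1 i = y' i) :
    ∃ ρ > 0, ∀ (z : Z) (p : ANO.X r k), (∀ i ∈ I₀, dist (p.1 i) (y i) ≤ ρ) →
      ¬ ∀ i ∈ I₀, dist ((z • p).1 i) (y' i) ≤ ρ := by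
  have hK : IsCompact (⋃ i, (Metric.closedBall (y i) 1 ∪ Metric.closedBall (y' i) 1)) :=
    isCompact_iUnion fun i => (isCompact_closedBall _ _).union (isCompact_closedBall _ _)
  suffices hQ : ∃ ρ > 0, ρ ≤ 1 ∧ ∀ z ∈ {z : Z | ∃ p : ANO.X r k,
      (∀ i ∈ I₀, p.1 i ∈ ⋃ i, (Metric.closedBall (y i) 1 ∪ Metric.closedBall (y' i) 1)) ∧
        ∀ i ∈ I₀, (z • p).1 i ∈ ⋃ i, (Metric.closedBall (y i) 1 ∪ Metric.closedBall (y' i) 1)},
      ∀ p : ANO.X r k, (∀ i ∈ I₀, dist (p.1 i) (y i) ≤ ρ) →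
      ¬ ∀ i ∈ I₀, dist ((z • p).1 i) (y' i) ≤ ρ by
    obtain ⟨ρ, hρ, hρ1, hP⟩ := hQ
    refine ⟨ρ, hρ, fun z p h1 h2 => hP z ⟨p, fun i hi => ?_, fun i hi => ?_⟩ p h1 h2⟩
    · exact mem_iUnion.2 ⟨i, Or.inl (Metric.mem_closedBall.2 ((h1 i hi).trans hρ1))⟩
    · exact mem_iUnion.2 ⟨i, Or.inr (Metric.mem_closedBall.2 ((h2 i hi).trans hρ1))⟩
  refine common_ActX (h.finiteN Φ hK)
    (P := fun z ρ => ∀ p : ANO.X r k, (∀ i ∈ I₀, dist (p.1 i) (y i) ≤ ρ) →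
      ¬ ∀ i ∈ I₀, dist ((z • p).1 i) (y' i) ≤ ρ) ?_ ?_
  · intro z
    obtain ⟨γ, hγ, hc⟩ := h.coord z
    have h1 := hne z (y, fun _ => 0) fun i _ => rfl
    push Not at h1
    obtain ⟨i, hi, h2⟩ := h1
    rw [hc] at h2
    have h3 : γ i • y i ≠ y' i := h2
    have h5 : 0 < dist (γ i • y i) (y' i) := dist_pos.2 h3
    refine ⟨dist (γ i • y i) (y' i) / 3, by linarith, fun p h6 h7 => ?_⟩
    have h8 := h6 i hi
    have h9 := h7 i hi
    rw [hc] at h9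
    have h10 := dist_triangle (γ i • y i) (γ i • p.1 i) (y' i)
    rw [dist_smul, dist_comm (y i) (p.1 i)] at h10
    linarith
  · intro z ρ ρ' hle h1 p h2 h3
    exact h1 p (fun i hi => (h2 i hi).trans hle) fun i hi => (h3 i hi).trans hle

end Pool.Agent.ANO2.EqApp
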