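import Pool.Agent.ANO2.EqApp.Defs
import Pool.Agent.ANO2.EqIdx.Basic
import Pool.Agent.ANO.Idx.Deck

/-!
# ANO2, module EqApp: the chart of `ℍ` and the action of a surface group (package EQAPP-CHARTH)

* `chartH`: `toE = (↑)`, `ofE = UpperHalfPlane.ofComplex`, the image is `{z | 0 < z.im}`; `ball`:
  closed
  hyperbolic balls are Euclidean discs (`UpperHalfPlane.image_coe_closedBall`, see
  `Pool.Agent.ANO.Idx.convex_ball`, `dist_le_of_mid`).
* `GH S`: the image of `S.Γ` in the permutations of `ℍ`. `actionH`: the elements of `SL(2, ℝ)` act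
  by
  isometries, of class `C¹` (see `deck_contDiffOn` in `Pool.Agent.ANO.Idx.Deck` and
  `IsDeck.contDiffOn` in `Pool.Agent.ANO.Dyn.DeckC`); `free`: `ClosedSurface.free`; `proper`: image
  of
  the finite set `ClosedSurface.proper`.
* `cocompactH`: `ClosedSurface.cocompact`.
-/

set_option autoImplicit false
set_option linter.unusedSectionVars false

open Set Filter Topology
open scoped UpperHalfPlane MatrixGroups

namespace Pool.Agent.ANO2.EqApp

open Pool.Agent.ANO Pool.Agent.ANO2 Pool.Agent.ANO2.EqIdx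

private theorem range_ChartH : range (fun z : ℍ => (z : ℂ)) = {z : ℂ | 0 < z.im} := by
  ext x
  constructor
  · rintro ⟨p, rfl⟩
    exact p.im_pos
  · intro hx
    exact ⟨⟨x, hx⟩, rfl⟩

private theorem convex_ball_ChartH (p : ℍ) (R : ℝ) :
    Convex ℝ ((fun z : ℍ => (z : ℂ)) '' Metric.closedBall p R) := by
  have h := UpperHalfPlane.image_coe_closedBall p R
  have h2 : (fun z : ℍ => (z : ℂ)) '' Metric.closedBall p R =
      ((↑) : ℍ → ℂ) '' Metric.closedBall p R := rfl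
  rw [h2, h]
  exact convex_closedBall _ _

/-- The standard chart of `ℍ`. -/
noncomputable def chartH : Chart ℍ ℂ where
  toE := fun z => (z : ℂ)
  ofE := fun z => UpperHalfPlane.ofComplex z
  left_inv := fun p => UpperHalfPlane.ofComplex_apply p
  isOpen := UpperHalfPlane.isOpenEmbedding_coe.isOpen_range
  cont := UpperHalfPlane.continuous_coe
  contOf := by
    rintro x ⟨p, rfl⟩
    apply ContinuousAt.continuousWithinAt
    change ContinuousAt (fun z => UpperHalfPlane.ofComplex z) (p : ℂ)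
    rw [← UpperHalfPlane.isOpenEmbedding_coe.continuousAt_iff]
    have h : (fun z : ℂ => UpperHalfPlane.ofComplex z) ∘ ((↑) : ℍ → ℂ) = id :=
      funext UpperHalfPlane.ofComplex_apply
    rw [h]
    exact continuousAt_id
  conv := by
    rw [range_ChartH]
    exact convex_halfSpace_im_gt 0
  ball := by
    intro a b t ht
    have ha : (a : ℂ) ∈ (fun z : ℍ => (z : ℂ)) '' Metric.closedBall b (dist a b) :=
      ⟨a, Metric.mem_closedBall.2 le_rfl, rfl⟩
    have hb : (b : ℂ) ∈ (fun z : ℍ => (z : ℂ)) '' Metric.closedBall b (dist a b) :=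
      ⟨b, Metric.mem_closedBall_self dist_nonneg, rfl⟩
    obtain ⟨c, hc, h1⟩ := convex_ball_ChartH b (dist a b) ha hb (a := 1 - t) (b := t)
      (by linarith [ht.2]) ht.1 (by ring)
    change dist (UpperHalfPlane.ofComplex ((1 - t) • (a : ℂ) + t • (b : ℂ))) b ≤ dist a b
    rw [← h1]
    change dist (UpperHalfPlane.ofComplex (c : ℂ)) b ≤ dist a b
    rw [UpperHalfPlane.ofComplex_apply]
    exact hc

/-- The image of the surface group in the permutations of `ℍ`. -/
noncomputable def GH (S : ClosedSurface) : Subgroup (Equiv.Perm ℍ) :=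
  S.Γ.map (MulAction.toPermHom SL(2, ℝ) ℍ)

theorem exists_of_GH {S : ClosedSurface} (z : GH S) : ∃ γ ∈ S.Γ, ∀ p : ℍ, z • p = γ • p := by
  obtain ⟨z, hz⟩ := z
  obtain ⟨γ, hγ, rfl⟩ := Subgroup.mem_map.1 hz
  exact ⟨γ, hγ, fun p => rfl⟩

theorem exists_GH {S : ClosedSurface} {γ : SL(2, ℝ)} (hγ : γ ∈ S.Γ) :
    ∃ z : GH S, ∀ p : ℍ, z • p = γ • p :=
  ⟨⟨MulAction.toPermHom SL(2, ℝ) ℍ γ, Subgroup.mem_map_of_mem _ hγ⟩, fun _ => rfl⟩

private theorem GH_ext_ChartH {S : ClosedSurface} {z z' : GH S} (h : ∀ p : ℍ, z • p = z' • p) :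
    z = z' :=
  Subtype.ext (Equiv.ext h)

/-- the denominator `c z + d` -/
private noncomputable def den_ChartH (γ : SL(2, ℝ)) (z : ℂ) : ℂ :=
  ((γ 1 0 : ℝ) : ℂ) * z + ((γ 1 1 : ℝ) : ℂ)

private theorem den_ne_ChartH (γ : SL(2, ℝ)) {z : ℂ} (hz : 0 < z.im) : den_ChartH γ z ≠ 0 := by
  intro h
  have h1 := congrArg Complex.im h
  have h2 := congrArg Complex.re h
  simp [den_ChartH] at h1 h2
  have h3 : γ 0 0 * γ 1 1 - γ 0 1 * γ 1 0 = 1 := by
    have h := γ.det_coe
    rwa [Matrix.det_fin_two] at h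
  rcases h1 with h1 | h1
  · rw [h1] at h2 h3
    simp at h2
    rw [h2] at h3
    simp at h3
  · exact hz.ne' h1

private theorem smooth_ChartH (γ : SL(2, ℝ)) :
    ContDiffOn ℝ 1 (chartH.loc fun x => γ • x) chartH.dom := by
  have h2 : ContDiff ℝ 1 (den_ChartH γ) :=
    (contDiff_const.mul contDiff_id).add contDiff_const
  have h3 : ContDiff ℝ 1 (fun x : ℂ => ((γ 0 0 : ℝ) : ℂ) * x + ((γ 0 1 : ℝ) : ℂ)) :=
    (contDiff_const.mul contDiff_id).add contDiff_const
  have hdom : ∀ x ∈ chartH.dom, 0 < x.im := by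
    rintro x ⟨p, rfl⟩
    exact p.im_pos
  have h4 : ContDiffOn ℝ 1 (fun x : ℂ => (den_ChartH γ x)⁻¹) chartH.dom :=
    h2.contDiffOn.inv fun x hx => den_ne_ChartH γ (hdom x hx)
  refine (h3.contDiffOn.mul h4).congr fun x hx => ?_
  change ((γ • (UpperHalfPlane.ofComplex x) : ℍ) : ℂ) = _
  rw [UpperHalfPlane.coe_specialLinearGroup_apply,
    UpperHalfPlane.ofComplex_apply_of_im_pos (hdom x hx)]
  exact div_eq_mul_inv _ _

theorem actionH (S : ClosedSurface) : Action chartH (GH S) := by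
  refine ⟨fun z x y => ?_, fun z => ?_, fun z x hx => ?_, fun K hK => ?_⟩
  · obtain ⟨γ, -, h⟩ := exists_of_GH z
    rw [h, h]
    exact dist_smul γ x y
  · obtain ⟨γ, -, h⟩ := exists_of_GH z
    have h1 : (fun x : ℍ => z • x) = fun x => γ • x := funext h
    rw [h1]
    exact smooth_ChartH γ
  · obtain ⟨γ, hγ, h⟩ := exists_of_GH z
    refine GH_ext_ChartH fun p => ?_
    rw [h p, one_smul]
    exact S.free γ hγ x (by rw [← h]; exact hx) p
  · have hf : ∀ z : GH S, ∃ γ ∈ S.Γ, ∀ p : ℍ, z • p = γ • p := exists_of_GH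
    choose f hf1 hf2 using hf
    refine Set.Finite.of_injOn (f := f) (t := {γ : SL(2, ℝ) | γ ∈ S.Γ ∧ ∃ z ∈ K, γ • z ∈ K})
      ?_ ?_ (S.proper K hK)
    · rintro z ⟨x, hx, hzx⟩
      exact ⟨hf1 z, x, hx, by rw [← hf2]; exact hzx⟩
    · intro z _ z' _ hzz
      refine GH_ext_ChartH fun p => ?_
      rw [hf2 z, hf2 z', hzz]

theorem cocompactH (S : ClosedSurface) : ∃ M : Set ℍ, IsCompact M ∧ sat (GH S) M = univ := by
  obtain ⟨K, hK, h⟩ := S.cocompact
  refine ⟨K, hK, eq_univ_of_forall fun x => ?_⟩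
  obtain ⟨γ, hγ, hx⟩ := h x
  obtain ⟨z, hz⟩ := exists_GH hγ
  exact ⟨z, by rw [hz]; exact hx⟩

end Pool.Agent.ANO2.EqApp
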