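import Pool.Agent.ANO2.EqApp.Defs

/-!
# ANO2, module EqApp: powers of the model map (package EQAPP-ITER)

`T₀ p = (H_i p_i, B t + β z)`. By induction `T₀^[j] p = ((H_i)^[j] p_i, B^[j] t + β_j z)` with
  `β_j`
continuous (`β_(j+1) z = B (β_j z) + β ((H_i)^[j] z_i)`; the `H i` are continuous because `T₀` is:
`(T₀ p).1 i = H i (p.1 i)`). `ModData.pow`: `Φ.H i` becomes `(H i)^[j]`, `Φ.B` becomes `B ^ j`;
`((H i)^[j])^[l] = (H i)^[j * l]` (`Function.iterate_mul`).
`GrpData.pow`: `T₀^[j] (z • p) = z • T₀^[j] p`.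
-/

set_option autoImplicit false
set_option linter.unusedSectionVars false

open Set Filter Topology
open scoped UpperHalfPlane MatrixGroups

namespace Pool.Agent.ANO2.EqApp

open Pool.Agent.ANO Pool.Agent.ANO2 Pool.Agent.ANO2.EqIdx

variable {r k : ℕ} {S : Fin r → ClosedSurface} {I₀ : Set (Fin r)}
  {T₀ : ANO.X r k → ANO.X r k}

theorem ModData.contH (D : ModData I₀ T₀) (i : Fin r) : Continuous (D.Φ.H i) := by
  have h : D.Φ.H i = fun z : ℍ => (T₀ (fun _ => z, 0)).1 i := by
    funext z
    rw [D.Φ.form]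
  rw [h]
  exact (continuous_apply i).comp (continuous_fst.comp (D.cont.comp
    ((continuous_pi fun _ => continuous_id).prodMk continuous_const)))

private theorem fst_Iter (Φ : Form T₀) (j : ℕ) (p : ANO.X r k) :
    (T₀^[j] p).1 = fun i => (Φ.H i)^[j] (p.1 i) := by
  induction j with
  | zero => rfl
  | succ j ih =>
    rw [Function.iterate_succ_apply', Φ.form, ih]
    funext i
    rw [Function.iterate_succ_apply']

private theorem snd_step_Iter (Φ : Form T₀) (p : ANO.X r k) :
    (T₀ p).2 = Φ.B p.2 + Φ.β p.1 := by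
  rw [Φ.form]
  funext m
  rfl

private theorem snd_Iter (Φ : Form T₀) (j : ℕ) (p : ANO.X r k) :
    (T₀^[j] p).2 = (Φ.B ^ j) p.2 + (T₀^[j] (p.1, 0)).2 := by
  induction j with
  | zero => simp
  | succ j ih =>
    rw [Function.iterate_succ_apply', Function.iterate_succ_apply', snd_step_Iter Φ,
      snd_step_Iter Φ (T₀^[j] (p.1, 0)), ih, fst_Iter Φ, fst_Iter Φ, map_add, pow_succ', add_assoc]
    rfl

theorem ModData.pow (D : ModData I₀ T₀) {j : ℕ} (hj : 0 < j) :
    ∃ D' : ModData I₀ T₀^[j], D'.w = D.w := by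
  have hB : ∀ (n : ℕ) (u : Fin k → ℝ), (D.Φ.B ^ n) u = (D.Φ.B)^[n] u := by
    intro n
    induction n with
    | zero => intro u; rfl
    | succ n ih =>
      intro u
      rw [pow_succ', Function.iterate_succ_apply', ← ih]
      rfl
  refine ⟨{ Φ := ⟨fun i => (D.Φ.H i)^[j], D.Φ.B ^ j, fun z => (T₀^[j] (z, 0)).2, ?_, ?_, ?_⟩
            cont := D.cont.iterate j
            id := ?_
            w := D.w
            reg := ?_
            bdd := ?_
            uniq := ?_
            hyp := ?_ }, rfl⟩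
  · exact continuous_snd.comp ((D.cont.iterate j).comp (continuous_id.prodMk continuous_const))
  · intro u hu
    rw [hB] at hu
    exact D.hyp j hj u hu
  · intro p
    refine Prod.ext (fst_Iter D.Φ j p) ?_
    rw [snd_Iter D.Φ j p]
    funext m
    rfl
  · intro i hi z
    exact Function.iterate_fixed (D.id i hi z) j
  · intro i hi l hl
    show RegFixed (D.w i) ((D.Φ.H i)^[j])^[l]
    rw [← Function.iterate_mul]
    exact D.reg i hi (j * l) (Nat.mul_pos hj hl)
  · intro i hi l hl C
    show ∃ R : ℝ, ∀ z, dist z (((D.Φ.H i)^[j])^[l] z) ≤ C → dist z (D.w i) ≤ R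
    rw [← Function.iterate_mul]
    exact D.bdd i hi (j * l) (Nat.mul_pos hj hl) C
  · intro i hi l hl
    show ∀ z, ((D.Φ.H i)^[j])^[l] z = z → z = D.w i
    rw [← Function.iterate_mul]
    exact D.uniq i hi (j * l) (Nat.mul_pos hj hl)
  · intro l hl u hu
    have h1 : (⇑(D.Φ.B ^ j))^[l] u = (D.Φ.B)^[j * l] u := by
      rw [Function.iterate_mul]
      congr 1
      funext v
      exact hB j v
    rw [show (⇑(D.Φ.B ^ j))^[l] u = u from hu] at h1
    exact D.hyp (j * l) (Nat.mul_pos hj hl) u h1.symm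

theorem GrpData.pow {Z : Type} [Group Z] [MulAction Z (ANO.X r k)] (h : GrpData S I₀ T₀ Z)
    (j : ℕ) : GrpData S I₀ T₀^[j] Z where
  deck := h.deck
  faithful := h.faithful
  triv := h.triv
  comm := by
    intro z
    induction j with
    | zero => intro p; rfl
    | succ j ih =>
      intro p
      rw [Function.iterate_succ_apply', Function.iterate_succ_apply', ih, h.comm]
  cocpt := h.cocpt

end Pool.Agent.ANO2.EqApp
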