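import Pool.Agent.ANO2.EqApp.ActX
import Pool.Agent.ANO2.EqApp.Iter

/-!
# ANO2, module EqApp: compactness modulo the group (package EQAPP-CPT)

* `bdd_coord`: a set of points `p` with `I₀`-coordinates in a compact set, `dist p (a p) ≤ R`, where
  `(a p).1 i = H i (p.1 i)` for `i ∉ I₀` and `(a p).2 = B p.2 + β p.1 + v`, is contained in a
  compact
  set: for `i ∉ I₀` use `ModData.bdd` with `j = 1`; the torus coordinate satisfies
  `‖p.2 - B p.2‖ ≤ R + sup ‖β‖ + ‖v‖`, and `1 - B` is injective, so invertible (finite dimension;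
  `LinearMap.exists_antilipschitzWith`).
* `cpt_repl`: `repl I₀ θ T₀` is `Z`-equivariant (`repl_equi`), so we may replace `p` by `z • p` with
  `I₀`-coordinates in `K` (`GrpData.cocpt`).
* `cpt_cent`: let `dist p (a • T₀ p) ≤ R`. Choose `z` with the `I₀`-coordinates of `z • p` in `K`.
  Then
  `p' = z • p` satisfies `dist p' (f • T₀ p') ≤ R` with `f = z * a * z⁻¹`, so, as `T₀` is the
  identity in
  the coordinates `i ∈ I₀`, `dist (p'.1 i) ((f • p').1 i) ≤ R`: the `I₀`-coordinates of `p'`, `f •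
  p'`
  are in a compact set and `f` is in a finite set `Y` (`GrpData.finiteN`). For every `f ∈ Y` which
  is
  conjugate to `a` fix `g_f` with `g_f * a * g_f⁻¹ = f`. Then `g_f⁻¹ * z` commutes with `a`, and
  `(g_f⁻¹ * z) • p = g_f⁻¹ • p'`, where `p'` is in a compact set (`bdd_coord`: for given `f`, the
  transformation `f` translates the torus coordinate by a constant vector `v`).
-/

set_option autoImplicit false
set_option linter.unusedSectionVars false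

open Set Filter Topology
open scoped UpperHalfPlane MatrixGroups

namespace Pool.Agent.ANO2.EqApp

open Pool.Agent.ANO Pool.Agent.ANO2 Pool.Agent.ANO2.EqIdx

variable {r k : ℕ} {S : Fin r → ClosedSurface} {I₀ : Set (Fin r)}
  {T₀ : ANO.X r k → ANO.X r k} {Z : Type} [Group Z] [MulAction Z (ANO.X r k)]

private theorem fst_dist_Cpt (p q : ANO.X r k) (i : Fin r) : dist (p.1 i) (q.1 i) ≤ dist p q :=
  (dist_le_pi_dist p.1 q.1 i).trans (le_max_left _ _)

private theorem snd_dist_Cpt (p q : ANO.X r k) : ‖p.2 - q.2‖ ≤ dist p q := by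
  rw [← dist_eq_norm]
  exact le_max_right _ _

private theorem expand_Cpt (B : (Fin k → ℝ) →L[ℝ] (Fin k → ℝ)) (h : ∀ u, B u = u → u = 0) :
    ∃ c : ℝ, 0 ≤ c ∧ ∀ t, ‖t‖ ≤ c * ‖t - B t‖ := by
  have hker : LinearMap.ker (LinearMap.id - (B : (Fin k → ℝ) →ₗ[ℝ] (Fin k → ℝ))) = ⊥ := by
    rw [LinearMap.ker_eq_bot']
    intro u hu
    refine h u ?_
    have h1 : u - B u = 0 := hu
    exact (sub_eq_zero.1 h1).symm
  obtain ⟨K, -, hK⟩ := LinearMap.exists_antilipschitzWith _ hker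
  refine ⟨K, K.2, fun t => ?_⟩
  have h1 := hK.le_mul_dist t 0
  rw [map_zero, dist_zero_right, dist_zero_right] at h1
  exact h1

theorem bdd_coord (D : ModData I₀ T₀) {K : Set ℍ} (hK : IsCompact K) (R : ℝ) (v : Fin k → ℝ) :
    ∃ L : Set (ANO.X r k), IsCompact L ∧ ∀ (p : ANO.X r k) (y : Fin r → ℍ),
      (∀ i ∈ I₀, p.1 i ∈ K) → (∀ i ∉ I₀, y i = D.Φ.H i (p.1 i)) →
      dist p (y, fun j => D.Φ.B p.2 j + D.Φ.β p.1 j + v j) ≤ R → p ∈ L := by
  classical
  have hR : ∀ i : Fin r, ∃ Ri : ℝ, i ∉ I₀ → ∀ z, dist z (D.Φ.H i z) ≤ R → dist z (D.w i) ≤ Ri := by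
    intro i
    by_cases hi : i ∈ I₀
    · exact ⟨0, fun h => absurd hi h⟩
    · obtain ⟨Ri, hRi⟩ := D.bdd i hi 1 one_pos R
      exact ⟨Ri, fun _ z hz => hRi z hz⟩
  choose Ri hRi using hR
  set Ki : Fin r → Set ℍ := fun i => if i ∈ I₀ then K else Metric.closedBall (D.w i) (Ri i) with hKi
  have hKic : ∀ i, IsCompact (Ki i) := by
    intro i
    by_cases hi : i ∈ I₀
    · rw [hKi]; simpa only [hi, if_true] using hK
    · rw [hKi]; simpa only [hi, if_false] using isCompact_closedBall (D.w i) (Ri i)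
  have hM : IsCompact (Set.pi univ Ki) := isCompact_univ_pi hKic
  obtain ⟨Cβ, hCβ⟩ := (hM.image D.Φ.cont).isBounded.exists_norm_le
  obtain ⟨c, hc, hcB⟩ := expand_Cpt D.Φ.B D.Φ.hyp
  refine ⟨Set.pi univ Ki ×ˢ Metric.closedBall 0 (c * (R + Cβ + ‖v‖)),
    hM.prod (isCompact_closedBall _ _), ?_⟩
  intro p y hp hy hd
  have h1 : p.1 ∈ Set.pi univ Ki := by
    intro i _
    by_cases hi : i ∈ I₀
    · rw [hKi]; simpa only [hi, if_true] using hp i hi
    · rw [hKi]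
      simp only [hi, if_false]
      rw [Metric.mem_closedBall]
      refine hRi i hi _ ?_
      rw [← hy i hi]
      exact (fst_dist_Cpt p (y, fun j => D.Φ.B p.2 j + D.Φ.β p.1 j + v j) i).trans hd
  refine ⟨h1, ?_⟩
  rw [Metric.mem_closedBall, dist_zero_right]
  refine (hcB p.2).trans (mul_le_mul_of_nonneg_left ?_ hc)
  have h2 := (snd_dist_Cpt p (y, fun j => D.Φ.B p.2 j + D.Φ.β p.1 j + v j)).trans hd
  have h3 : ‖D.Φ.β p.1‖ ≤ Cβ := hCβ _ ⟨p.1, h1, rfl⟩
  have e : p.2 - D.Φ.B p.2 =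
      (p.2 - (fun j => D.Φ.B p.2 j + D.Φ.β p.1 j + v j)) + (D.Φ.β p.1 + v) := by
    funext j
    simp only [Pi.sub_apply, Pi.add_apply]
    ring
  have h4 := norm_add_le (p.2 - (fun j => D.Φ.B p.2 j + D.Φ.β p.1 j + v j)) (D.Φ.β p.1 + v)
  have h5 := norm_add_le (D.Φ.β p.1) v
  rw [e]
  change ‖p.2 - (fun j => D.Φ.B p.2 j + D.Φ.β p.1 j + v j)‖ ≤ R at h2
  linarith

private theorem repl_fst_mem_Cpt {θ : Fin r → ℍ → ℍ} (p : ANO.X r k) {i : Fin r} (hi : i ∈ I₀) :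
    (repl I₀ θ T₀ p).1 i = θ i (p.1 i) := by
  simp [repl, hi]

private theorem repl_fst_notMem_Cpt {θ : Fin r → ℍ → ℍ} (p : ANO.X r k) {i : Fin r}
    (hi : i ∉ I₀) : (repl I₀ θ T₀ p).1 i = (T₀ p).1 i := by
  simp [repl, hi]

private theorem repl_snd_Cpt {θ : Fin r → ℍ → ℍ} (p : ANO.X r k) :
    (repl I₀ θ T₀ p).2 = (T₀ p).2 := rfl

theorem repl_continuous {θ : Fin r → ℍ → ℍ} (hθ : ∀ i, Theta (S i) (θ i))
    (hT : Continuous T₀) : Continuous (repl I₀ θ T₀) := by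
  refine Continuous.prodMk (continuous_pi fun i => ?_) (continuous_snd.comp hT)
  by_cases hi : i ∈ I₀
  · simp only [hi, if_true]
    exact (hθ i).cont.comp ((continuous_apply i).comp continuous_fst)
  · simp only [hi, if_false]
    exact (continuous_apply i).comp (continuous_fst.comp hT)

theorem repl_equi (h : GrpData S I₀ T₀ Z) (Φ : Form T₀) {θ : Fin r → ℍ → ℍ}
    (hθ : ∀ i, Theta (S i) (θ i)) (z : Z) (p : ANO.X r k) :
    repl I₀ θ T₀ (z • p) = z • repl I₀ θ T₀ p := by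
  obtain ⟨γ, v, hγ, hz⟩ := h.deck z
  have hz' : ∀ q : ANO.X r k, z • q = (fun i => γ i • q.1 i, fun j => q.2 j + v j) := hz
  refine Prod.ext (funext fun i => ?_) (funext fun j => ?_)
  · rw [hz' (repl I₀ θ T₀ p)]
    by_cases hi : i ∈ I₀
    · rw [repl_fst_mem_Cpt _ hi]
      change _ = γ i • (repl I₀ θ T₀ p).1 i
      rw [repl_fst_mem_Cpt _ hi, hz' p]
      exact (hθ i).equi (γ i) (hγ i) (p.1 i)
    · rw [repl_fst_notMem_Cpt _ hi]
      change _ = γ i • (repl I₀ θ T₀ p).1 i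
      rw [repl_fst_notMem_Cpt _ hi, h.comm z p, hz' (T₀ p)]
  · rw [hz' (repl I₀ θ T₀ p), repl_snd_Cpt, h.comm z p, hz' (T₀ p)]
    rfl

theorem repl_near (D : ModData I₀ T₀) {θ : Fin r → ℍ → ℍ} (hθ : ∀ i, Theta (S i) (θ i)) :
    ∃ c : ℝ, ∀ p, dist (T₀ p) (repl I₀ θ T₀ p) ≤ c := by
  choose c hc using fun i => (hθ i).near
  have hs : 0 ≤ ∑ i, |c i| := Finset.sum_nonneg fun i _ => abs_nonneg _
  refine ⟨∑ i, |c i|, fun p => max_le ?_ ?_⟩
  · rw [dist_pi_le_iff hs]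
    intro i
    by_cases hi : i ∈ I₀
    · rw [repl_fst_mem_Cpt _ hi, D.Φ.form p]
      change dist (D.Φ.H i (p.1 i)) _ ≤ _
      rw [D.id i hi, dist_comm]
      exact ((hc i (p.1 i)).trans (le_abs_self _)).trans
        (Finset.single_le_sum (f := fun i => |c i|) (fun j _ => abs_nonneg _)
          (Finset.mem_univ i))
    · rw [repl_fst_notMem_Cpt _ hi, dist_self]
      exact hs
  · rw [repl_snd_Cpt, dist_self]
    exact hs

theorem cpt_repl (h : GrpData S I₀ T₀ Z) (D : ModData I₀ T₀) {θ : Fin r → ℍ → ℍ}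
    (hθ : ∀ i, Theta (S i) (θ i)) (R : ℝ) :
    ∃ L, IsCompact L ∧ ∀ x, dist x (repl I₀ θ T₀ x) ≤ R → x ∈ sat Z L := by
  obtain ⟨K, hK, hKc⟩ := h.cocpt
  obtain ⟨L, hL, hL'⟩ := bdd_coord D hK R 0
  refine ⟨L, hL, fun x hx => ?_⟩
  obtain ⟨z, hz⟩ := hKc x
  refine ⟨z, hL' (z • x) (repl I₀ θ T₀ (z • x)).1 hz (fun i hi => ?_) ?_⟩
  · rw [repl_fst_notMem_Cpt _ hi, D.Φ.form (z • x)]
  · have e : ((repl I₀ θ T₀ (z • x)).1, fun j => D.Φ.B (z • x).2 j + D.Φ.β (z • x).1 j +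
        (0 : Fin k → ℝ) j) = repl I₀ θ T₀ (z • x) := by
      refine Prod.ext rfl ?_
      rw [repl_snd_Cpt, D.Φ.form (z • x)]
      funext j
      simp
    rw [e, repl_equi h D.Φ hθ, h.action.dist_smul]
    exact hx

theorem cpt_cent (h : GrpData S I₀ T₀ Z) (D : ModData I₀ T₀) (a : Z) (R : ℝ) :
    ∃ L : Set (ANO.X r k), IsCompact L ∧ ∀ x : ANO.X r k, dist x (a • T₀ x) ≤ R →
      ∃ z : Z, z * a = a * z ∧ z • x ∈ L := by
  classical
  obtain ⟨K, hK, hKc⟩ := h.cocpt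
  set K2 : Set ℍ := Metric.cthickening R K with hK2
  have hK2c : IsCompact K2 := hK.cthickening
  set Y : Set Z := {f : Z | ∃ p : ANO.X r k, (∀ i ∈ I₀, p.1 i ∈ K2) ∧
    ∀ i ∈ I₀, (f • p).1 i ∈ K2} with hY
  have hYf : Y.Finite := h.finiteN D.Φ hK2c
  choose γ v hγ hz using fun f : Z => h.deck f
  have hz' : ∀ (f : Z) (q : ANO.X r k),
      f • q = (fun i => γ f i • q.1 i, fun j => q.2 j + v f j) := hz
  choose Lf hLf hLf' using fun f : Z => bdd_coord D hK R (fun j => (v f j : ℝ))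
  set g : Z → Z := fun f => if hg : ∃ g : Z, g * a * g⁻¹ = f then hg.choose else 1 with hg
  have hgf : ∀ f, (∃ g : Z, g * a * g⁻¹ = f) → g f * a * (g f)⁻¹ = f := by
    intro f hf
    rw [hg]
    simp only [hf, dif_pos]
    exact hf.choose_spec
  refine ⟨⋃ f ∈ Y, (fun x => (g f)⁻¹ • x) '' Lf f,
    hYf.isCompact_biUnion fun f _ => (hLf f).image (h.action.continuous_smul _), ?_⟩
  intro x hx
  obtain ⟨z, hzK⟩ := hKc x
  set f : Z := z * a * z⁻¹ with hf
  have e1 : f • T₀ (z • x) = z • (a • T₀ x) := by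
    rw [h.comm, hf, smul_smul, smul_smul]
    congr 1
    group
  have hd : dist (z • x) (f • T₀ (z • x)) ≤ R := by
    rw [e1, h.action.dist_smul]
    exact hx
  have hfst : ∀ i ∈ I₀, (f • T₀ (z • x)).1 i = (f • (z • x)).1 i := by
    intro i hi
    rw [hz' f (T₀ (z • x)), hz' f (z • x)]
    change γ f i • (T₀ (z • x)).1 i = γ f i • (z • x).1 i
    rw [D.Φ.form (z • x)]
    change γ f i • D.Φ.H i ((z • x).1 i) = _
    rw [D.id i hi]
  have hR0 : 0 ≤ R := dist_nonneg.trans hx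
  have hfY : f ∈ Y := by
    refine ⟨z • x, fun i hi => Metric.self_subset_cthickening K (hzK i hi), fun i hi => ?_⟩
    rw [← hfst i hi]
    refine Metric.mem_cthickening_of_dist_le _ ((z • x).1 i) R K (hzK i hi) ?_
    rw [dist_comm]
    exact (fst_dist_Cpt (z • x) (f • T₀ (z • x)) i).trans hd
  have hp : z • x ∈ Lf f := by
    refine hLf' f (z • x) (f • T₀ (z • x)).1 hzK (fun i hi => ?_) ?_
    · rw [h.triv f _ i hi, D.Φ.form (z • x)]
    · have e2 : ((f • T₀ (z • x)).1, fun j => D.Φ.B (z • x).2 j + D.Φ.β (z • x).1 j +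
          (v f j : ℝ)) = f • T₀ (z • x) := by
        refine Prod.ext rfl ?_
        rw [hz' f (T₀ (z • x)), D.Φ.form (z • x)]
      rw [e2]
      exact hd
  have hconj : g f * a * (g f)⁻¹ = f := hgf f ⟨z, rfl⟩
  refine ⟨(g f)⁻¹ * z, ?_, ?_⟩
  · have h1 : z * a = f * z := by
      rw [hf]
      group
    have h2 : g f * a = f * g f := mul_inv_eq_iff_eq_mul.1 hconj
    calc (g f)⁻¹ * z * a = (g f)⁻¹ * (z * a) := by group
      _ = (g f)⁻¹ * (f * z) := by rw [h1]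
      _ = (g f)⁻¹ * (f * g f) * ((g f)⁻¹ * z) := by group
      _ = (g f)⁻¹ * (g f * a) * ((g f)⁻¹ * z) := by rw [h2]
      _ = a * ((g f)⁻¹ * z) := by group
  · rw [mul_smul]
    exact mem_iUnion₂.2 ⟨f, hfY, mem_image_of_mem _ hp⟩

end Pool.Agent.ANO2.EqApp
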