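import Pool.Agent.ANO2.Iface
import Pool.Agent.ANO2.EqIdx.Inst
import Pool.Agent.ANO.Idx.Box

/-!
# ANO2, module EqApp: the index theory of the case with identity factors, definitions

`MP_5e77d9_an`, blueprint `/team-store/ANO_Phase2.md`, sections 5 (D1) and 6.

`S` is a family of closed surfaces, `I₀` the set of identity factors, `T₀ = g ∘ G₀` a lift of a
power of the model, `T = g ∘ F ^ M` the corresponding lift of the power of the Anosov
diffeomorphism, `Z` a group of deck transformations which move only the identity factors and the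
torus coordinate, and commute with `T₀`.

`Final.lean`: `z T ^ n` has no fixed point for `z ≠ 1`, `n > 0`, and the number of `Z`-orbits of
fixed
points of `T ^ n` is bounded.
-/

set_option autoImplicit false

open Set Filter Topology
open scoped UpperHalfPlane MatrixGroups

namespace Pool.Agent.ANO2.EqApp

open Pool.Agent.ANO Pool.Agent.ANO2 Pool.Agent.ANO2.EqIdx

variable {r k : ℕ}

/-- The group `Z`. -/
structure GrpData (S : Fin r → ClosedSurface) (I₀ : Set (Fin r)) (T₀ : ANO.X r k → ANO.X r k)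
    (Z : Type) [Group Z] [MulAction Z (ANO.X r k)] : Prop where
  deck : ∀ z : Z, IsDeck S k fun p => z • p
  faithful : ∀ z : Z, (∀ p : ANO.X r k, z • p = p) → z = 1
  triv : ∀ (z : Z) (p : ANO.X r k) (i : Fin r), i ∉ I₀ → (z • p).1 i = p.1 i
  comm : ∀ (z : Z) (p : ANO.X r k), T₀ (z • p) = z • T₀ p
  cocpt : ∃ K : Set ℍ, IsCompact K ∧ ∀ p : ANO.X r k, ∃ z : Z, ∀ i ∈ I₀, (z • p).1 i ∈ K

/-- The model map `T₀`. -/
structure ModData (I₀ : Set (Fin r)) (T₀ : ANO.X r k → ANO.X r k) where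
  Φ : Form T₀
  cont : Continuous T₀
  id : ∀ i ∈ I₀, ∀ z, Φ.H i z = z
  w : Fin r → ℍ
  reg : ∀ i ∉ I₀, ∀ j : ℕ, 0 < j → RegFixed (w i) (Φ.H i)^[j]
  bdd : ∀ i ∉ I₀, ∀ j : ℕ, 0 < j → ∀ C : ℝ, ∃ R : ℝ, ∀ z, dist z ((Φ.H i)^[j] z) ≤ C →
    dist z (w i) ≤ R
  uniq : ∀ i ∉ I₀, ∀ j : ℕ, 0 < j → ∀ z, (Φ.H i)^[j] z = z → z = w i
  hyp : ∀ j : ℕ, 0 < j → ∀ u, (Φ.B)^[j] u = u → u = 0

/-- `T` is the lift of a power of the Anosov diffeomorphism which corresponds to the lift `T₀` of a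
power of the model. -/
def Pair (S : Fin r → ClosedSurface) (T₀ T : ANO.X r k → ANO.X r k) : Prop :=
  ∃ (F : ANO.X r k ≃ₜ ANO.X r k) (M : ℕ) (G₀ g : ANO.X r k → ANO.X r k), IsAnosovLift S F ∧
    0 < M ∧ Continuous G₀ ∧ Homotopic S G₀ (F ^ M : ANO.X r k ≃ₜ ANO.X r k) ∧ IsDeck S k g ∧
    (∀ p, T₀ p = g (G₀ p)) ∧ ∀ p, T p = g ((F ^ M) p)

/-- Replace the identity factors of `T₀` by the maps `θ i`. -/
noncomputable def repl (I₀ : Set (Fin r)) (θ : Fin r → ℍ → ℍ) (T₀ : ANO.X r k → ANO.X r k)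
    (p : ANO.X r k) : ANO.X r k :=
  by classical exact (fun i => if i ∈ I₀ then θ i (p.1 i) else (T₀ p).1 i, (T₀ p).2)

/-- The perturbations of the identity of the surfaces. -/
structure Theta (S : ClosedSurface) (θ : ℍ → ℍ) : Prop where
  cont : Continuous θ
  equi : ∀ γ ∈ S.Γ, ∀ z : ℍ, θ (γ • z) = γ • θ z
  near : ∃ c : ℝ, ∀ z, dist (θ z) z ≤ c
  finite : ∀ K : Set ℍ, IsCompact K → (K ∩ {z | θ z = z}).Finite
  box : ∀ y, θ y = y → ∀ δ : ℝ, 0 < δ → ∃ b : ANO.Idx.Box θ y 1, b.ρ < δ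

end Pool.Agent.ANO2.EqApp
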