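import Pool.Agent.ANO2.EqApp.Cpt
import Pool.Agent.ANO2.Idx2.Fix
import Pool.Agent.ANO2.Idx2.RegN

/-!
# ANO2, module EqApp: local comparison data (package EQAPP-FIXF)

For a fixed point `(y, t) ∈ R` of `G₀ = repl I₀ θ T₀` use `Idx2.prod_box` with the boxes `Theta.box`
(`i ∈ I₀`, of radius `< δ`) and `Idx2.reg_box` (`i ∉ I₀`; from `RegFixed (w i) (H i)`, as in
`box_of_reg` of `Idx2/Final.lean`; `y i = w i` by `ModData.uniq`), `n i = 1`; `N' = toE⁻¹' N` is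
compact, `toE '' N' = N`. `δ` is so small that the points of `N'` have `I₀`-coordinates at
hyperbolic distance `≤ ρ` from those of `y` (last conclusion of `prod_box`), with `ρ` from
`GrpData.exists_smallN` and `GrpData.exists_disjN` (for the finitely many pairs of different
elements of `R`; if `p.1 i = y i` and `(z • p).1 i = y' i` for all `i ∈ I₀` then `z • (y, t)` is a
fixed
point of `G₀` with the same surface coordinates as `(y', t')`, so equal to it: excluded by `hne`).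
So the translates of `N'` are disjoint, and so are the saturations for different representatives.
-/

set_option autoImplicit false
set_option linter.unusedSectionVars false

open Set Filter Topology
open scoped UpperHalfPlane MatrixGroups

namespace Pool.Agent.ANO2.EqApp

open Pool.Agent.ANO Pool.Agent.ANO2 Pool.Agent.ANO2.EqIdx

variable {r k : ℕ} {S : Fin r → ClosedSurface} {I₀ : Set (Fin r)}
  {Z : Type} [Group Z] [MulAction Z (ANO.X r k)]

private theorem box_of_reg_FixF {H : ℍ → ℍ} {w : ℍ} (h : RegFixed w H) :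
    ∃ b : ANO.Idx.Box H w 1, b.κ w = 0 := by
  obtain ⟨hw, hc, D, L, ε, hL, hε, hD, hD', hev⟩ := h
  refine Idx2.reg_box (c := D w - ε * stretch L (D w)) hD hD' hc hw hL hε ?_
  filter_upwards [hev] with z hz
  have h1 : stretch L (D z - D w) = stretch L (D z) - stretch L (D w) := by
    apply Complex.ext <;> simp [stretch] <;> ring
  rw [h1] at hz
  linear_combination hz

/-- small Euclidean discs are contained in small hyperbolic discs -/
private theorem disc_FixF (y : ℍ) {ρ : ℝ} (hρ : 0 < ρ) :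
    ∃ δ > 0, ∀ x ∈ Metric.closedBall (y : ℂ) δ, dist (UpperHalfPlane.ofComplex x) y ≤ ρ := by
  have h1 : ContinuousAt (fun x : ℂ => UpperHalfPlane.ofComplex x) (y : ℂ) := by
    rw [← UpperHalfPlane.isOpenEmbedding_coe.continuousAt_iff]
    have h : (fun x : ℂ => UpperHalfPlane.ofComplex x) ∘ ((↑) : ℍ → ℂ) = id :=
      funext fun z => UpperHalfPlane.ofComplex_apply z
    rw [h]
    exact continuousAt_id
  have h2 : {x : ℂ | dist (UpperHalfPlane.ofComplex x) y < ρ} ∈ 𝓝 (y : ℂ) := by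
    have h3 : Metric.ball y ρ ∈ 𝓝 (UpperHalfPlane.ofComplex (y : ℂ)) := by
      rw [UpperHalfPlane.ofComplex_apply]
      exact Metric.ball_mem_nhds y hρ
    exact h1.preimage_mem_nhds h3
  obtain ⟨δ, hδ, hsub⟩ := Metric.nhds_basis_closedBall.mem_iff.1 h2
  exact ⟨δ, hδ, fun x hx => le_of_lt (hsub hx)⟩

private theorem repl_eq_FixF {T₀ : ANO.X r k → ANO.X r k} (Φ : Form T₀) (θ : Fin r → ℍ → ℍ)
    {H' : Fin r → ℍ → ℍ} (h1 : ∀ i ∈ I₀, H' i = θ i) (h2 : ∀ i ∉ I₀, H' i = Φ.H i) :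
    repl I₀ θ T₀ = fun p : ANO.X r k => (fun i => H' i (p.1 i), Φ.B p.2 + Φ.β p.1) := by
  funext p
  refine Prod.ext (funext fun i => ?_) ?_
  · by_cases hi : i ∈ I₀
    · simp [repl, hi, h1 i hi]
    · simp [repl, hi, h2 i hi, Φ.form p]
  · change (T₀ p).2 = _
    rw [Φ.form p]
    rfl

/-- a fixed point of `repl I₀ θ T₀` is determined by its surface coordinates -/
private theorem fix_unique_FixF {T₀ : ANO.X r k → ANO.X r k} (Φ : Form T₀) {θ : Fin r → ℍ → ℍ}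
    {p q : ANO.X r k} (hp : repl I₀ θ T₀ p = p) (hq : repl I₀ θ T₀ q = q) (h : p.1 = q.1) :
    p = q := by
  have h1 : Φ.B p.2 + Φ.β p.1 = p.2 := by
    have h3 : (T₀ p).2 = p.2 := (congrArg Prod.snd hp : (repl I₀ θ T₀ p).2 = p.2)
    rw [Φ.form p] at h3
    exact h3
  have h2 : Φ.B q.2 + Φ.β q.1 = q.2 := by
    have h3 : (T₀ q).2 = q.2 := (congrArg Prod.snd hq : (repl I₀ θ T₀ q).2 = q.2)
    rw [Φ.form q] at h3
    exact h3
  refine Prod.ext h (sub_eq_zero.1 (Φ.hyp _ ?_))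
  rw [map_sub]
  rw [← h] at h2
  calc Φ.B p.2 - Φ.B q.2 = (Φ.B p.2 + Φ.β p.1) - (Φ.B q.2 + Φ.β p.1) := by abel
    _ = p.2 - q.2 := by rw [h1, h2]

private theorem fix_w_FixF {T₀ : ANO.X r k → ANO.X r k} (D : ModData I₀ T₀)
    {θ : Fin r → ℍ → ℍ} {p : ANO.X r k} (hp : repl I₀ θ T₀ p = p) {i : Fin r} (hi : i ∉ I₀) :
    p.1 i = D.w i := by
  refine D.uniq i hi 1 one_pos _ ?_
  have h1 : (repl I₀ θ T₀ p).1 i = p.1 i := by rw [hp]
  have h2 : (repl I₀ θ T₀ p).1 i = (T₀ p).1 i := by simp [repl, hi]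
  rw [h2, D.Φ.form p] at h1
  exact h1

private theorem exists_rho_FixF {T₀ : ANO.X r k → ANO.X r k} (h : GrpData S I₀ T₀ Z)
    (D : ModData I₀ T₀) {θ : Fin r → ℍ → ℍ} (hθ : ∀ i, Theta (S i) (θ i))
    {R : Finset (ANO.X r k)} (hR : ∀ p ∈ R, repl I₀ θ T₀ p = p)
    (hne : ∀ p ∈ R, ∀ p' ∈ R, p ≠ p' → ∀ z : Z, z • p ≠ p') :
    ∃ ρ > 0, (∀ p : R, ∀ (z : Z) (q : ANO.X r k),
      (∀ i ∈ I₀, dist (q.1 i) ((p : ANO.X r k).1 i) ≤ ρ) →
      (∀ i ∈ I₀, dist ((z • q).1 i) ((p : ANO.X r k).1 i) ≤ ρ) → z = 1) ∧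
      ∀ p p' : R, p ≠ p' → ∀ (z : Z) (q : ANO.X r k),
        (∀ i ∈ I₀, dist (q.1 i) ((p : ANO.X r k).1 i) ≤ ρ) →
        ¬ ∀ i ∈ I₀, dist ((z • q).1 i) ((p' : ANO.X r k).1 i) ≤ ρ := by
  have h1 : ∀ p : R, ∀ᶠ ρ in 𝓝[>] (0 : ℝ), ∀ (z : Z) (q : ANO.X r k),
      (∀ i ∈ I₀, dist (q.1 i) ((p : ANO.X r k).1 i) ≤ ρ) →
      (∀ i ∈ I₀, dist ((z • q).1 i) ((p : ANO.X r k).1 i) ≤ ρ) → z = 1 := by
    intro p
    obtain ⟨ρ₁, hρ₁, hz⟩ := h.exists_smallN D.Φ (p : ANO.X r k).1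
    filter_upwards [Ioc_mem_nhdsGT hρ₁] with ρ hρ z q hq hq'
    exact hz z q (fun i hi => (hq i hi).trans hρ.2) fun i hi => (hq' i hi).trans hρ.2
  have h2 : ∀ p p' : R, ∀ᶠ ρ in 𝓝[>] (0 : ℝ), p ≠ p' → ∀ (z : Z) (q : ANO.X r k),
      (∀ i ∈ I₀, dist (q.1 i) ((p : ANO.X r k).1 i) ≤ ρ) →
      ¬ ∀ i ∈ I₀, dist ((z • q).1 i) ((p' : ANO.X r k).1 i) ≤ ρ := by
    intro p p'
    by_cases hpp : p = p'
    · exact Eventually.of_forall fun ρ hn => absurd hpp hn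
    · obtain ⟨ρ₁, hρ₁, hz⟩ := h.exists_disjN D.Φ (p : ANO.X r k).1 (p' : ANO.X r k).1 (by
        intro z q hq hq'
        refine hne p p.2 p' p'.2 (fun he => hpp (Subtype.ext he)) z ?_
        have hzp : repl I₀ θ T₀ (z • (p : ANO.X r k)) = z • (p : ANO.X r k) := by
          rw [repl_equi h D.Φ hθ, hR p p.2]
        refine fix_unique_FixF D.Φ hzp (hR p' p'.2) (funext fun i => ?_)
        by_cases hi : i ∈ I₀
        · obtain ⟨γ, -, hγ⟩ := h.coord z
          rw [hγ, ← hq i hi, ← hγ]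
          exact hq' i hi
        · rw [fix_w_FixF D hzp hi, fix_w_FixF D (hR p' p'.2) hi])
      filter_upwards [Ioc_mem_nhdsGT hρ₁] with ρ hρ hn z q hq hq'
      exact hz z q (fun i hi => (hq i hi).trans hρ.2) fun i hi => (hq' i hi).trans hρ.2
  have h3 := (eventually_all.2 h1).and (eventually_all.2 fun p => eventually_all.2 (h2 p))
  obtain ⟨ρ, hρ, hρ0⟩ := (h3.and self_mem_nhdsWithin).exists
  exact ⟨ρ, hρ0, hρ.1, hρ.2⟩

/-- the local comparison data -/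
theorem exists_family {T₀ : ANO.X r k → ANO.X r k} (h : GrpData S I₀ T₀ Z) (D : ModData I₀ T₀)
    {θ : Fin r → ℍ → ℍ} (hθ : ∀ i, Theta (S i) (θ i)) {R : Finset (ANO.X r k)}
    (hR : ∀ p ∈ R, repl I₀ θ T₀ p = p)
    (hne : ∀ p ∈ R, ∀ p' ∈ R, p ≠ p' → ∀ z : Z, z • p ≠ p') :
    ∃ (N : R → Set (ANO.X r k)) (κ : R → ANO.E r k → ANO.E r k) (W : R → Set (ANO.E r k)),
      (∀ p, IsCompact (N p)) ∧ (∀ p : R, (p : ANO.X r k) ∈ interior (N p)) ∧
      (∀ p, Small Z (N p)) ∧ (∀ p p', p ≠ p' → ∀ x ∈ N p, x ∉ sat Z (N p')) ∧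
      (∀ p, IsOpen (W p)) ∧ (∀ p, (chartX r k).toE '' N p ⊆ W p) ∧
      (∀ p, ContDiffOn ℝ 1 (κ p) (W p)) ∧
      (∀ p, ANO.Idx.Reg (κ p) ((chartX r k).toE '' N p)) ∧
      (∀ p, ∀ x ∈ frontier ((chartX r k).toE '' N p), ∀ t ∈ Icc (0 : ℝ) 1,
        (chartX r k).disp (repl I₀ θ T₀) x +
          t • (κ p x - (chartX r k).disp (repl I₀ θ T₀) x) ≠ 0) ∧
      ∀ p, ((chartX r k).toE '' N p ∩ κ p ⁻¹' {0}).encard ≤ 1 := by
  classical
  obtain ⟨ρ, hρ0, hsmall, hdisj⟩ := exists_rho_FixF h D hθ hR hne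
  set H' : Fin r → ℍ → ℍ := fun i => if i ∈ I₀ then θ i else D.Φ.H i with hH'
  have hH1 : ∀ i ∈ I₀, H' i = θ i := fun i hi => by simp [hH', hi]
  have hH2 : ∀ i ∉ I₀, H' i = D.Φ.H i := fun i hi => by simp [hH', hi]
  have hG := repl_eq_FixF (I₀ := I₀) D.Φ θ hH1 hH2
  have hbox : ∀ (p : R) (i : Fin r), ∃ b : ANO.Idx.Box (H' i) ((p : ANO.X r k).1 i) 1,
      i ∈ I₀ → ∀ x ∈ Metric.closedBall (((p : ANO.X r k).1 i : ℍ) : ℂ) b.ρ,
        dist (UpperHalfPlane.ofComplex x) ((p : ANO.X r k).1 i) ≤ ρ := by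
    intro p i
    by_cases hi : i ∈ I₀
    · rw [hH1 i hi]
      obtain ⟨δ, hδ, hsub⟩ := disc_FixF ((p : ANO.X r k).1 i) hρ0
      have hfix : θ i ((p : ANO.X r k).1 i) = (p : ANO.X r k).1 i := by
        have h1 : (repl I₀ θ T₀ (p : ANO.X r k)).1 i = (p : ANO.X r k).1 i := by rw [hR p p.2]
        rw [hG] at h1
        change H' i _ = _ at h1
        rw [hH1 i hi] at h1
        exact h1
      obtain ⟨b, hb⟩ := (hθ i).box _ hfix δ hδ
      exact ⟨b, fun _ x hx => hsub x (Metric.closedBall_subset_closedBall hb.le hx)⟩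
    · rw [hH2 i hi]
      have hreg : RegFixed ((p : ANO.X r k).1 i) (D.Φ.H i) := by
        rw [fix_w_FixF D (hR p p.2) hi]
        have h1 := D.reg i hi 1 one_pos
        rwa [Function.iterate_one] at h1
      obtain ⟨b, -⟩ := box_of_reg_FixF hreg
      exact ⟨b, fun hi' => absurd hi' hi⟩
  choose b hb using hbox
  have hBw : ∀ p : R, D.Φ.B (p : ANO.X r k).2 + D.Φ.β (p : ANO.X r k).1 = (p : ANO.X r k).2 := by
    intro p
    have h1 : (repl I₀ θ T₀ (p : ANO.X r k)).2 = (p : ANO.X r k).2 := by rw [hR p p.2]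
    rw [hG] at h1
    exact h1
  choose N W κ hN hNd hW hNW hκ hκr hwN h3 hz hκw hcb using fun p : R =>
    Idx2.prod_box (b p) D.Φ.cont D.Φ.hyp (hBw p)
  have himg : ∀ p, toE '' ((toE : ANO.X r k → ANO.E r k) ⁻¹' N p) = N p := by
    intro p
    rw [image_preimage_eq_inter_range, Idx.range_toE]
    exact inter_eq_left.2 (hNd p)
  have hcoord : ∀ (p : R) (x : ANO.X r k), toE x ∈ N p → ∀ i ∈ I₀,
      dist (x.1 i) ((p : ANO.X r k).1 i) ≤ ρ := by
    intro p x hx i hi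
    have h1 := hb p i hi _ (hcb p (toE x) hx i)
    have h2 : UpperHalfPlane.ofComplex ((toE x).1 i) = x.1 i := by
      have h3 := congrArg (fun q : ANO.X r k => q.1 i) (Idx.ofE_toE x)
      exact h3
    rwa [h2] at h1
  refine ⟨fun p => toE ⁻¹' N p, κ, W, fun p => ?_, fun p => ?_, fun p z hz1 x hx hx' => ?_,
    fun p p' hpp x hx hx' => ?_, hW, fun p => ?_, hκ, fun p => ?_, fun p => ?_, fun p => ?_⟩
  · have h1 : (toE : ANO.X r k → ANO.E r k) ⁻¹' N p = ofE '' N p := by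
      ext x
      constructor
      · exact fun hx => ⟨toE x, hx, Idx.ofE_toE x⟩
      · rintro ⟨y, hy, rfl⟩
        change toE (ofE y) ∈ N p
        rw [Idx.toE_ofE (hNd p hy)]
        exact hy
    change IsCompact ((toE : ANO.X r k → ANO.E r k) ⁻¹' N p)
    rw [h1]
    exact (hN p).image_of_continuousOn (Idx.continuousOn_ofE.mono (hNd p))
  · exact preimage_interior_subset_interior_preimage Idx.continuous_toE (hwN p)
  · exact hz1 (hsmall p z x (hcoord p x hx) (hcoord p (z • x) hx'))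
  · obtain ⟨z, hzx⟩ := hx'
    exact hdisj p p' hpp z x (hcoord p x hx) (hcoord p' (z • x) hzx)
  · change toE '' _ ⊆ _
    rw [himg p]
    exact hNW p
  · change ANO.Idx.Reg (κ p) (toE '' _)
    rw [himg p]
    exact hκr p
  · change ∀ x ∈ frontier (toE '' _), _
    rw [himg p, hG]
    exact h3 p
  · change (toE '' _ ∩ _).encard ≤ 1
    rw [himg p]
    simpa using hz p

end Pool.Agent.ANO2.EqApp
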