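import Pool.Agent.ANO2.EqApp.ChartH
import Pool.Agent.ANO2.EqIdx.Pert

/-!
# ANO2, module EqApp: perturbations of the identity of a surface (package EQAPP-THETA)

`θ` from `exists_perturbation` (`EqIdx/Pert.lean`) for `chartH`, `GH S`, `δ = 1`. `finite`:
`finite_fix`. `box`: at a fixed point `y` the `C¹` map `κ z = z - θ (ofComplex z) = chartH.disp θ
z` has
an injective derivative, so `y` is its only zero in a small disc: take `κ`, `W` = upper half plane
(or a smaller open set), the homotopy on the circle is constant. Compare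
`Pool.Agent.ANO.Idx.reg_box` (`RegC.lean`). `ρ` can be chosen as small as we like.
-/

set_option autoImplicit false
set_option linter.unusedSectionVars false

open Set Filter Topology
open scoped UpperHalfPlane MatrixGroups

namespace Pool.Agent.ANO2.EqApp

open Pool.Agent.ANO Pool.Agent.ANO2 Pool.Agent.ANO2.EqIdx

private theorem inj_of_det_Theta {f : ℂ →L[ℝ] ℂ} (hf : f.det ≠ 0) : ∀ v, f v = 0 → v = 0 := by
  intro v hv
  have h1 := (ContinuousLinearMap.toContinuousLinearEquivOfDetNeZero f hf).injective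
  apply h1
  rw [map_zero]
  exact hv

private theorem anti_Theta {f : ℂ →L[ℝ] ℂ} (hf : ∀ v, f v = 0 → v = 0) :
    ∃ C, AntilipschitzWith C f := by
  obtain ⟨K, -, hK⟩ := LinearMap.exists_antilipschitzWith (f : ℂ →ₗ[ℝ] ℂ)
    (LinearMap.ker_eq_bot'.mpr hf)
  exact ⟨K, hK⟩

private theorem box_Theta {θ : ℍ → ℍ} (hs : ContDiffOn ℝ 1 (chartH.loc θ) chartH.dom) {y : ℍ}
    (hy : θ y = y) (hnd : (fderiv ℝ (chartH.disp θ) (chartH.toE y)).det ≠ 0) {δ : ℝ}
    (hδ : 0 < δ) : ∃ b : ANO.Idx.Box θ y 1, b.ρ < δ := by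
  have hdom : chartH.dom ⊆ {z : ℂ | 0 < z.im} := by
    rintro z ⟨w, rfl⟩
    exact w.im_pos
  have hWo : IsOpen chartH.dom := chartH.isOpen_dom
  have hyW : (y : ℂ) ∈ chartH.dom := chartH.mem_dom y
  set κ : ℂ → ℂ := fun z : ℂ => z - (θ (UpperHalfPlane.ofComplex z) : ℂ) with hκ
  have hκe : κ = chartH.disp θ := rfl
  have hcd : ContDiffOn ℝ 1 κ chartH.dom := chartH.contDiffOn_disp hs
  have hinj : ∀ v, fderiv ℝ κ (y : ℂ) v = 0 → v = 0 := inj_of_det_Theta hnd
  have hκy : κ (y : ℂ) = 0 := by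
    rw [hκ]
    simp [hy]
  have hκd : HasFDerivAt κ (fderiv ℝ κ (y : ℂ)) (y : ℂ) :=
    ((hcd.contDiffAt (hWo.mem_nhds hyW)).differentiableAt (by norm_num)).hasFDerivAt
  have hne : ∀ᶠ z in 𝓝[≠] (y : ℂ), κ z ≠ 0 := hκd.eventually_ne (anti_Theta hinj)
  rw [eventually_nhdsWithin_iff] at hne
  obtain ⟨ρ₀, hρ₀, hball₀⟩ := Metric.nhds_basis_closedBall.mem_iff.mp
    (inter_mem hne (hWo.mem_nhds hyW))
  set ρ : ℝ := min ρ₀ (δ / 2) with hρdef
  have hρ : 0 < ρ := lt_min hρ₀ (by linarith)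
  have hball : Metric.closedBall (y : ℂ) ρ ⊆
      {z | z ∈ ({(y : ℂ)}ᶜ : Set ℂ) → κ z ≠ 0} ∩ chartH.dom :=
    (Metric.closedBall_subset_closedBall (min_le_left _ _)).trans hball₀
  have hzero : ∀ z ∈ Metric.closedBall (y : ℂ) ρ, κ z = 0 → z = y := by
    intro z hz h0
    by_contra hzw
    exact (hball hz).1 hzw h0
  refine ⟨{ ρ := ρ
            ρ_pos := hρ
            sub := fun z hz => hdom (hball hz).2
            W := chartH.dom
            W_open := hWo
            W_sub := fun z hz => (hball hz).2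
            κ := κ
            smooth := hcd
            reg := ?_
            zeros := ?_
            bdry := ?_ }, ?_⟩
  · intro z hz h0 v hv
    rw [hzero z hz h0] at hv
    exact hinj v hv
  · refine le_trans (Set.encard_le_encard (t := {(y : ℂ)}) ?_) ?_
    · rintro z ⟨hz, h0⟩
      exact hzero z hz h0
    · simp
  · intro z hz t _
    have hzne : z ≠ y := by
      rintro rfl
      simp at hz
      linarith
    have hn : κ z ≠ 0 := fun h0 => hzne (hzero z (Metric.sphere_subset_closedBall hz) h0)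
    have e : (z - (θ (UpperHalfPlane.ofComplex z) : ℂ)) = κ z := rfl
    rw [e, sub_self, smul_zero, add_zero]
    exact hn
  · show ρ < δ
    exact lt_of_le_of_lt (min_le_right _ _) (by linarith)

theorem exists_theta (S : ClosedSurface) : ∃ θ : ℍ → ℍ, Theta S θ := by
  obtain ⟨θ, hθ, hd, hnd, -⟩ := exists_perturbation (actionH S) (cocompactH S) one_pos
  refine ⟨θ, chartH.continuous_of_loc hθ.smooth.continuousOn, ?_, ⟨1, hd⟩, ?_, ?_⟩
  · intro γ hγ z
    obtain ⟨g, hg⟩ := exists_GH hγ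
    rw [← hg, ← hg]
    exact hθ.equi g z
  · intro K hK
    exact finite_fix hθ hK fun q _ hq => hnd q (mem_univ q) hq
  · intro y hy δ hδ
    exact box_Theta hθ.smooth hy (hnd y (mem_univ y) hy) hδ

end Pool.Agent.ANO2.EqApp
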