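import Pool.Agent.ANO2.EqApp.FixR
import Pool.Agent.ANO2.EqApp.FixF
import Pool.Agent.ANO2.EqApp.Theta
import Pool.Agent.ANO2.EqIdx.Data

/-!
# ANO2, module EqApp: the number of orbits of fixed points (package EQAPP-FIXG)

`encard_fixOrb_le_data` with `n = 1`, `R` from `exists_reps`, the family from `exists_family`; the
hypotheses on `T` are in `Pair.lean` (`T` commutes with `Z` by `Pair.comm` and `GrpData.deck`),
those
on `G₀` in `Cpt.lean`; `dist (T p) (G₀ p) ≤ dist (T p) (T₀ p) + dist (T₀ p) (G₀ p)`.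
-/

set_option autoImplicit false
set_option linter.unusedSectionVars false

open Set Filter Topology
open scoped UpperHalfPlane MatrixGroups

namespace Pool.Agent.ANO2.EqApp

open Pool.Agent.ANO Pool.Agent.ANO2 Pool.Agent.ANO2.EqIdx

variable {r k : ℕ} {S : Fin r → ClosedSurface} {I₀ : Set (Fin r)}
  {Z : Type} [Group Z] [MulAction Z (ANO.X r k)]

theorem exists_bound [Nontrivial (ANO.E r k)] {θ : Fin r → ℍ → ℍ}
    (hθ : ∀ i, Theta (S i) (θ i)) {K : Set ℍ} (hK : IsCompact K) :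
    ∃ B₀ : ℕ, ∀ (T₀ T : ANO.X r k → ANO.X r k), GrpData S I₀ T₀ Z → ModData I₀ T₀ →
      Pair S T₀ T → (∀ p : ANO.X r k, ∃ z : Z, ∀ i ∈ I₀, (z • p).1 i ∈ K) →
      (fixOrb Z T).encard ≤ B₀ := by
  classical
  obtain ⟨B₀, hB₀⟩ := exists_reps (Z := Z) (I₀ := I₀) (k := k) hθ hK
  refine ⟨B₀, fun T₀ T h D hP hKc => ?_⟩
  obtain ⟨R, hRc, hR, hne, hrep⟩ := hB₀ T₀ h D hKc
  obtain ⟨N, κ, W, hN, hNi, hsm, hdis, hW, hNW, hκ, hκr, hfr, hn⟩ :=
    exists_family h D hθ hR hne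
  have hZ : Action (chartX r k) Z := h.action
  obtain ⟨σ, hσ, hsg⟩ := hP.sign
  obtain ⟨c₁, hc₁⟩ := hP.near
  obtain ⟨c₂, hc₂⟩ := repl_near D hθ
  have hdisp : (chartX r k).disp T = fun x => x - loc T x := rfl
  have hG : Eqv (chartX r k) Z T := by
    refine ⟨?_, fun z x => ?_⟩
    · rw [chartX_loc, chartX_dom]
      exact hP.smooth
    · exact hP.comm (h.deck z) (fun p => h.comm z p) x
  have hnd : NdOn (chartX r k) T univ := by
    intro q _ hq
    rw [hdisp]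
    exact (hsg q hq).1
  have hs : ∀ q, T q = q → sg (chartX r k) T q = σ := by
    intro q hq
    unfold sg
    rw [hdisp]
    exact (hsg q hq).2
  have hc : ∀ x, dist (T x) (repl I₀ θ T₀ x) ≤ c₁ + c₂ := fun x =>
    (dist_triangle _ (T₀ x) _).trans (add_le_add (hc₁ x) (hc₂ x))
  have hfix : ∀ q, repl I₀ θ T₀ q = q → ∃ i : R, q ∈ sat Z (interior (N i)) := by
    intro q hq
    obtain ⟨z, hz⟩ := hrep q hq
    exact ⟨⟨z • q, hz⟩, z, hNi ⟨z • q, hz⟩⟩
  have key := encard_fixOrb_le_data hZ hG hnd hσ hs (repl_continuous hθ D.cont)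
    (repl_equi h D.Φ hθ) hc (cpt_repl h D hθ) N hN hsm hdis hfix κ W hW hNW hκ hκr hfr 1
    (by simpa using hn)
  refine key.trans ?_
  rw [mul_one, Fintype.card_coe]
  exact_mod_cast hRc

end Pool.Agent.ANO2.EqApp
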