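import Pool.Agent.ANO2.EqApp.Cpt

/-!
# ANO2, module EqApp: representatives of the fixed points (package EQAPP-FIXR)

`G₀ = repl I₀ θ T₀`, of the form `(H'_i p_i, B t + β z)`, `H'_i = θ i` for `i ∈ I₀`, `H'_i = H_i`
otherwise.  `B₀ = ∏ i, max 1 (ncard (K ∩ Fix θ_i))`.

Let `Y` be the finite set of all `y : Fin r → ℍ` with `y i = w i` for `i ∉ I₀`, `θ i (y i) = y i`,
`y i ∈ K` for `i ∈ I₀`; `ncard Y ≤ B₀`. For `y ∈ Y` the vector `t = B t + β y` exists and is unique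
(`1 - B` is invertible), `(y, t)` is a fixed point of `G₀`. Every fixed point of `G₀` is moved by
some `z ∈ Z` to a fixed point (`repl_equi`) with `I₀`-coordinates in `K`, i.e. to one of these
points (`ModData.uniq`, `j = 1`). Choose representatives of the `Z`-orbits among these finitely many
points.
-/

set_option autoImplicit false
set_option linter.unusedSectionVars false

open Set Filter Topology
open scoped UpperHalfPlane MatrixGroups

namespace Pool.Agent.ANO2.EqApp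

open Pool.Agent.ANO Pool.Agent.ANO2 Pool.Agent.ANO2.EqIdx

variable {r k : ℕ} {S : Fin r → ClosedSurface} {I₀ : Set (Fin r)}
  {Z : Type} [Group Z] [MulAction Z (ANO.X r k)]

private theorem fst_mem_FixR {θ : Fin r → ℍ → ℍ} {T₀ : ANO.X r k → ANO.X r k} (p : ANO.X r k)
    {i : Fin r} (hi : i ∈ I₀) : (repl I₀ θ T₀ p).1 i = θ i (p.1 i) := by
  simp [repl, hi]

private theorem fst_notMem_FixR {θ : Fin r → ℍ → ℍ} {T₀ : ANO.X r k → ANO.X r k} (p : ANO.X r k)
    {i : Fin r} (hi : i ∉ I₀) : (repl I₀ θ T₀ p).1 i = (T₀ p).1 i := by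
  simp [repl, hi]

private theorem snd_FixR {θ : Fin r → ℍ → ℍ} {T₀ : ANO.X r k → ANO.X r k} (p : ANO.X r k) :
    (repl I₀ θ T₀ p).2 = (T₀ p).2 := rfl

/-- the fixed points with `I₀`-coordinates in `K` -/
private theorem finite_FixR {T₀ : ANO.X r k → ANO.X r k} (D : ModData I₀ T₀)
    {θ : Fin r → ℍ → ℍ} (hθ : ∀ i, Theta (S i) (θ i)) {K : Set ℍ} (hK : IsCompact K) :
    {p : ANO.X r k | repl I₀ θ T₀ p = p ∧ ∀ i ∈ I₀, p.1 i ∈ K}.Finite ∧
      {p : ANO.X r k | repl I₀ θ T₀ p = p ∧ ∀ i ∈ I₀, p.1 i ∈ K}.ncard ≤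
        ∏ i, max 1 (K ∩ {z | θ i z = z}).ncard := by
  classical
  set A : Fin r → Finset ℍ := fun i =>
    if i ∈ I₀ then ((hθ i).finite K hK).toFinset else {D.w i} with hA
  have hmaps : ∀ p ∈ {p : ANO.X r k | repl I₀ θ T₀ p = p ∧ ∀ i ∈ I₀, p.1 i ∈ K},
      p.1 ∈ (Fintype.piFinset A : Set (Fin r → ℍ)) := by
    rintro p ⟨hp, hpK⟩
    rw [Finset.mem_coe, Fintype.mem_piFinset]
    intro i
    have hpi : (repl I₀ θ T₀ p).1 i = p.1 i := by rw [hp]
    by_cases hi : i ∈ I₀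
    · rw [fst_mem_FixR p hi] at hpi
      rw [hA]
      simp only [hi, if_true, Set.Finite.mem_toFinset]
      exact ⟨hpK i hi, hpi⟩
    · rw [fst_notMem_FixR p hi, D.Φ.form p] at hpi
      rw [hA]
      simp only [hi, if_false, Finset.mem_singleton]
      exact D.uniq i hi 1 one_pos _ hpi
  have hinj : InjOn (fun p : ANO.X r k => p.1)
      {p : ANO.X r k | repl I₀ θ T₀ p = p ∧ ∀ i ∈ I₀, p.1 i ∈ K} := by
    rintro p ⟨hp, -⟩ q ⟨hq, -⟩ hpq
    have hpq1 : p.1 = q.1 := hpq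
    have h1 : ∀ a : ANO.X r k, repl I₀ θ T₀ a = a → ∀ j, a.2 j = D.Φ.B a.2 j + D.Φ.β a.1 j := by
      intro a ha j
      have h2 : (repl I₀ θ T₀ a).2 j = a.2 j := by rw [ha]
      rw [snd_FixR, D.Φ.form a] at h2
      exact h2.symm
    have h3 : D.Φ.B (p.2 - q.2) = p.2 - q.2 := by
      rw [map_sub]
      funext j
      have h4 := h1 p hp j
      have h5 := h1 q hq j
      rw [hpq1] at h4
      simp only [Pi.sub_apply]
      linarith
    have h6 := D.hyp 1 one_pos (p.2 - q.2) h3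
    exact Prod.ext hpq1 (sub_eq_zero.1 h6)
  have hfin : (Fintype.piFinset A : Set (Fin r → ℍ)).Finite := Finset.finite_toSet _
  refine ⟨Set.Finite.of_injOn hmaps hinj hfin, ?_⟩
  refine (Set.ncard_le_ncard_of_injOn _ hmaps hinj hfin).trans ?_
  rw [Set.ncard_coe_finset, Fintype.card_piFinset]
  refine Finset.prod_le_prod' fun i _ => ?_
  by_cases hi : i ∈ I₀
  · rw [hA]
    simp only [hi, if_true]
    rw [← Set.ncard_eq_toFinset_card _ ((hθ i).finite K hK)]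
    exact le_max_right _ _
  · rw [hA]
    simp only [hi, if_false, Finset.card_singleton]
    exact le_max_left _ _

/-- representatives of the orbits of fixed points of `repl I₀ θ T₀` -/
theorem exists_reps {θ : Fin r → ℍ → ℍ} (hθ : ∀ i, Theta (S i) (θ i)) {K : Set ℍ}
    (hK : IsCompact K) : ∃ B₀ : ℕ, ∀ (T₀ : ANO.X r k → ANO.X r k), GrpData S I₀ T₀ Z →
      ModData I₀ T₀ → (∀ p : ANO.X r k, ∃ z : Z, ∀ i ∈ I₀, (z • p).1 i ∈ K) →
      ∃ R : Finset (ANO.X r k), R.card ≤ B₀ ∧ (∀ p ∈ R, repl I₀ θ T₀ p = p) ∧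
        (∀ p ∈ R, ∀ p' ∈ R, p ≠ p' → ∀ z : Z, z • p ≠ p') ∧
        ∀ q, repl I₀ θ T₀ q = q → ∃ z : Z, z • q ∈ R := by
  classical
  refine ⟨∏ i, max 1 (K ∩ {z | θ i z = z}).ncard, fun T₀ h D hcov => ?_⟩
  obtain ⟨hF, hFc⟩ := finite_FixR D hθ hK
  set F : Set (ANO.X r k) := {p : ANO.X r k | repl I₀ θ T₀ p = p ∧ ∀ i ∈ I₀, p.1 i ∈ K} with hFd
  have hne : Nonempty (ANO.X r k) := inferInstance
  set π : ANO.X r k → MulAction.orbitRel.Quotient Z (ANO.X r k) :=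
    fun p => Quotient.mk (MulAction.orbitRel Z (ANO.X r k)) p with hπ
  have hπe : ∀ p q : ANO.X r k, π p = π q ↔ ∃ z : Z, z • q = p := by
    intro p q
    rw [hπ]
    simp only
    rw [Quotient.eq, MulAction.orbitRel_apply, MulAction.mem_orbit_iff]
  set c : ANO.X r k → ANO.X r k := fun p => Function.invFunOn π F (π p) with hc
  have hcm : ∀ p ∈ F, c p ∈ F := fun p hp => Function.invFunOn_mem ⟨p, hp, rfl⟩
  have hce : ∀ p ∈ F, π (c p) = π p := fun p hp => Function.invFunOn_eq ⟨p, hp, rfl⟩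
  refine ⟨hF.toFinset.image c, ?_, ?_, ?_, ?_⟩
  · refine Finset.card_image_le.trans ?_
    rw [← Set.ncard_eq_toFinset_card _ hF]
    exact hFc
  · intro p hp
    obtain ⟨q, hq, rfl⟩ := Finset.mem_image.1 hp
    exact (hcm q (hF.mem_toFinset.1 hq)).1
  · intro p hp p' hp' hne' z hz
    obtain ⟨q, hq, rfl⟩ := Finset.mem_image.1 hp
    obtain ⟨q', hq', rfl⟩ := Finset.mem_image.1 hp'
    have h1 : π (c q') = π (c q) := (hπe _ _).2 ⟨z, hz⟩
    rw [hce q (hF.mem_toFinset.1 hq), hce q' (hF.mem_toFinset.1 hq')] at h1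
    refine hne' ?_
    rw [hc]
    simp only
    rw [h1]
  · intro q hq
    obtain ⟨z, hz⟩ := hcov q
    have hzF : z • q ∈ F := by
      refine ⟨?_, hz⟩
      rw [repl_equi h D.Φ hθ, hq]
    obtain ⟨z', hz'⟩ := (hπe _ _).1 (hce _ hzF)
    refine ⟨z' * z, ?_⟩
    rw [mul_smul, hz']
    exact Finset.mem_image.2 ⟨z • q, hF.mem_toFinset.2 hzF, rfl⟩

end Pool.Agent.ANO2.EqApp
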