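import Pool.Agent.ANO2.EqApp.Defs
import Pool.Agent.ANO2.Idx.Sgn
import Pool.Agent.ANO2.Idx.Near

/-!
# ANO2, module EqApp: lifts and their powers (package EQAPP-PAIR)

* `Pair.smooth`, `Pair.cont`, `Pair.sign`, `Pair.near`: `Idx.contDiffOn_T`, `Idx.exists_sign`,
  `Idx.near`, `Idx.deck_dist`, `Idx.deck_continuous` (all in `Pool.Agent.ANO2.Idx`); `T = g ∘ F ^
  M` as
  functions.
* `Pair.comm`: for a deck transformation `h` there is `h₁` with `G₀ h = h₁ G₀`, `F ^ M h = h₁ F ^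
  M`,
  and `g h₁ = h' g` with the deck transformation `h' = g h₁ g⁻¹` (`Idx.deck_inv`, `Idx.deck_comp`),
  so
  `T₀ h = h' T₀`, `T h = h' T`. If `T₀ h = h T₀` then `h'` and `h` agree at a point, so they are
  equal
  (a deck transformation with a fixed point is the identity: `ClosedSurface.free` in each
  coordinate).
* `Pair.comp`: replace `g` by `h ∘ g`.
* `Pair.pow`: by induction on `j ≥ 1`; `T₀^[j] = g_j ∘ G₀^[j]`, `T^[j] = g_j ∘ F ^ (M * j)`,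
  `Homotopic S G₀^[j] (F ^ (M * j))` (compare `model_iterate_fix` in `Pool.Agent.ANO.Assemble` and
  `Homotopic.pow` in `Pool.Agent.ANO.Asm`).
-/

set_option autoImplicit false
set_option linter.unusedSectionVars false

open Set Filter Topology
open Pool.Agent.SmoothDegree
open scoped UpperHalfPlane MatrixGroups

namespace Pool.Agent.ANO2.EqApp

open Pool.Agent.ANO Pool.Agent.ANO2 Pool.Agent.ANO2.EqIdx

variable {r k : ℕ} {S : Fin r → ClosedSurface} {T₀ T : ANO.X r k → ANO.X r k}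

private theorem homotopic_comp_Pair {A B A' B' : ANO.X r k → ANO.X r k} (h : Homotopic S A B)
    (h' : Homotopic S A' B') : Homotopic S (A ∘ A') (B ∘ B') := by
  intro g hg
  obtain ⟨g₁, hg₁, e₁, e₁'⟩ := h' g hg
  obtain ⟨g₂, hg₂, e₂, e₂'⟩ := h g₁ hg₁
  refine ⟨g₂, hg₂, ?_, ?_⟩
  · rw [Function.comp_assoc, e₁, ← Function.comp_assoc, e₂, Function.comp_assoc]
  · rw [Function.comp_assoc, e₁', ← Function.comp_assoc, e₂', Function.comp_assoc]

private theorem pow_fun_Pair (F : ANO.X r k ≃ₜ ANO.X r k) (M j : ℕ) :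
    ((F ^ (M * (j + 1)) : ANO.X r k ≃ₜ ANO.X r k) : ANO.X r k → ANO.X r k) =
      (F ^ M : ANO.X r k ≃ₜ ANO.X r k) ∘ (F ^ (M * j) : ANO.X r k ≃ₜ ANO.X r k) := by
  have h : F ^ (M * (j + 1)) = F ^ M * F ^ (M * j) := by
    rw [← pow_add]
    congr 1
    ring
  rw [h]
  rfl

private theorem homotopic_pow_Pair {F : ANO.X r k ≃ₜ ANO.X r k} {M : ℕ}
    {G₀ : ANO.X r k → ANO.X r k} (h : Homotopic S G₀ (F ^ M : ANO.X r k ≃ₜ ANO.X r k)) (j : ℕ) :
    Homotopic S G₀^[j] (F ^ (M * j) : ANO.X r k ≃ₜ ANO.X r k) := by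
  induction j with
  | zero =>
    intro g hg
    refine ⟨g, hg, ?_, ?_⟩
    · rfl
    · rw [Nat.mul_zero, pow_zero]
      rfl
  | succ j ih =>
    rw [Function.iterate_succ', pow_fun_Pair]
    exact homotopic_comp_Pair h ih

/-- a deck transformation with a fixed point is the identity -/
theorem deck_eq_id {h : ANO.X r k → ANO.X r k} (hh : IsDeck S k h) {p : ANO.X r k}
    (hp : h p = p) : h = id := by
  obtain ⟨γ, v, hγ, hg⟩ := hh
  rw [hg p] at hp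
  have h1 : ∀ i, γ i • p.1 i = p.1 i := fun i => congrFun (congrArg Prod.fst hp) i
  have h2 : ∀ j, p.2 j + (v j : ℝ) = p.2 j := fun j => congrFun (congrArg Prod.snd hp) j
  funext q
  rw [hg q]
  refine Prod.ext (funext fun i => ?_) (funext fun j => ?_)
  · exact (S i).free (γ i) (hγ i) (p.1 i) (h1 i) (q.1 i)
  · have h3 := h2 j
    show q.2 j + (v j : ℝ) = q.2 j
    linarith

theorem Pair.smooth (h : Pair S T₀ T) : ContDiffOn ℝ 1 (loc T) (dom r k) := by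
  obtain ⟨F, M, G₀, g, hF, hM, hG₀, hH, hg, hT₀, hT⟩ := h
  have e : T = g ∘ (F ^ M : ANO.X r k ≃ₜ ANO.X r k) := funext hT
  rw [e]
  exact Idx.contDiffOn_T hF M hg

theorem Pair.cont (h : Pair S T₀ T) : Continuous T₀ := by
  obtain ⟨F, M, G₀, g, hF, hM, hG₀, hH, hg, hT₀, hT⟩ := h
  have e : T₀ = g ∘ G₀ := funext hT₀
  rw [e]
  exact (Idx.deck_continuous hg).comp hG₀

theorem Pair.sign (h : Pair S T₀ T) : ∃ σ : ℤ, σ.natAbs = 1 ∧ ∀ q, T q = q →
    (fderiv ℝ (fun x => x - loc T x) (toE q)).det ≠ 0 ∧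
      jacobianSign (fun x => x - loc T x) (toE q) = σ := by
  obtain ⟨F, M, G₀, g, hF, hM, hG₀, hH, hg, hT₀, hT⟩ := h
  have e : T = g ∘ (F ^ M : ANO.X r k ≃ₜ ANO.X r k) := funext hT
  obtain ⟨σ, hσ, h1⟩ := Idx.exists_sign hF hM hg
  refine ⟨σ, hσ, fun q hq => ?_⟩
  rw [e]
  exact h1 q (by rw [← hT q]; exact hq)

theorem Pair.near (h : Pair S T₀ T) : ∃ C : ℝ, ∀ p, dist (T p) (T₀ p) ≤ C := by
  obtain ⟨F, M, G₀, g, hF, hM, hG₀, hH, hg, hT₀, hT⟩ := h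
  obtain ⟨C, hC⟩ := Idx.near hH hG₀ (F ^ M : ANO.X r k ≃ₜ ANO.X r k).continuous
  refine ⟨C, fun p => ?_⟩
  rw [hT, hT₀, Idx.deck_dist hg]
  exact hC p

theorem Pair.comm (h : Pair S T₀ T) {a : ANO.X r k → ANO.X r k} (ha : IsDeck S k a)
    (hc : ∀ p, T₀ (a p) = a (T₀ p)) (p : ANO.X r k) : T (a p) = a (T p) := by
  obtain ⟨F, M, G₀, g, hF, hM, hG₀, hH, hg, hT₀, hT⟩ := h
  obtain ⟨a₁, ha₁, e₀, e⟩ := hH a ha
  obtain ⟨b, hb, hb1, hb2⟩ := Idx.deck_inv (Idx.deck_comp ha hg)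
  have h1 : IsDeck S k (b ∘ (g ∘ a₁)) := Idx.deck_comp hb (Idx.deck_comp hg ha₁)
  have h2 : (b ∘ (g ∘ a₁)) (G₀ p) = G₀ p := by
    have h3 : g (a₁ (G₀ p)) = a (g (G₀ p)) := by
      have h4 := hc p
      rw [hT₀, hT₀] at h4
      have h5 : G₀ (a p) = a₁ (G₀ p) := congrFun e₀ p
      rw [← h5, h4]
    show b (g (a₁ (G₀ p))) = G₀ p
    rw [h3]
    exact hb1 (G₀ p)
  have h3 := deck_eq_id h1 h2
  have h4 : ∀ q, g (a₁ q) = a (g q) := by
    intro q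
    have h5 : b (g (a₁ q)) = q := congrFun h3 q
    have h6 := hb2 (g (a₁ q))
    rw [h5] at h6
    exact h6.symm
  rw [hT, hT]
  have h5 : (F ^ M : ANO.X r k ≃ₜ ANO.X r k) (a p) = a₁ ((F ^ M : ANO.X r k ≃ₜ ANO.X r k) p) :=
    congrFun e p
  rw [h5]
  exact h4 _

theorem Pair.comp (h : Pair S T₀ T) {a : ANO.X r k → ANO.X r k} (ha : IsDeck S k a) :
    Pair S (fun p => a (T₀ p)) (fun p => a (T p)) := by
  obtain ⟨F, M, G₀, g, hF, hM, hG₀, hH, hg, hT₀, hT⟩ := h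
  exact ⟨F, M, G₀, a ∘ g, hF, hM, hG₀, hH, Idx.deck_comp ha hg,
    fun p => congrArg a (hT₀ p), fun p => congrArg a (hT p)⟩

theorem Pair.pow (h : Pair S T₀ T) {j : ℕ} (hj : 0 < j) : Pair S T₀^[j] T^[j] := by
  obtain ⟨F, M, G₀, g, hF, hM, hG₀, hH, hg, hT₀, hT⟩ := h
  have key : ∀ j : ℕ, ∃ gj, IsDeck S k gj ∧ (∀ p, T₀^[j] p = gj (G₀^[j] p)) ∧
      ∀ p, T^[j] p = gj ((F ^ (M * j) : ANO.X r k ≃ₜ ANO.X r k) p) := by
    intro j
    induction j with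
    | zero =>
      refine ⟨id, Idx.deck_id, fun p => rfl, fun p => ?_⟩
      rw [Nat.mul_zero, pow_zero]
      rfl
    | succ j ih =>
      obtain ⟨gj, hgj, e₀, e⟩ := ih
      obtain ⟨g', hg', f₀, f⟩ := hH gj hgj
      refine ⟨g ∘ g', Idx.deck_comp hg hg', fun p => ?_, fun p => ?_⟩
      · rw [Function.iterate_succ_apply', Function.iterate_succ_apply', e₀, hT₀]
        exact congrArg g (congrFun f₀ (G₀^[j] p))
      · rw [Function.iterate_succ_apply', e, hT, pow_fun_Pair]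
        exact congrArg g (congrFun f ((F ^ (M * j) : ANO.X r k ≃ₜ ANO.X r k) p))
  obtain ⟨gj, hgj, e₀, e⟩ := key j
  exact ⟨F, M * j, G₀^[j], gj, hF, Nat.mul_pos hM hj, hG₀.iterate j, homotopic_pow_Pair hH j, hgj,
    e₀, e⟩

end Pool.Agent.ANO2.EqApp
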